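import Pool.Agent.Helper21.AC0p.Defs

/-!
Formulas over a set of formulas, when `MOD_p` of few literals is free.
-/

namespace Pool.Agent.Helper21.AC0p

/-- A variable or the negation of a variable. -/
def Fm.IsLit (A : Fm) : Prop := ∃ i : ℕ, A = Fm.var i ∨ A = Fm.neg (Fm.var i)

/-- `MOD_p` of at most `m` literals. -/
def Fm.LitMod (m : ℕ) (A : Fm) : Prop :=
  ∃ (k : ℕ) (f : Fin k → Fm), A = Fm.mod k f ∧ k ≤ m ∧ ∀ i, (f i).IsLit

/-- The formula is built from variables, from formulas `MOD_p (l_1, ..., l_k)` with `k ≤ m` and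
literals `l_i`, and from members of `G`, by negations and disjunctions. -/
def Fm.OverM (m : ℕ) (G : Finset Fm) : Fm → Prop
  | .var _ => True
  | .neg A => Fm.neg A ∈ G ∨ Fm.OverM m G A
  | .or k f => Fm.or k f ∈ G ∨ ∀ i, Fm.OverM m G (f i)
  | .mod k f => Fm.mod k f ∈ G ∨ (k ≤ m ∧ ∀ i, (f i).IsLit)

/-- The number of distinct disjunctions and formulas `MOD_p (l_1, ..., l_k)`, `k ≤ m`, `l_i`
literals, that occur (as subformulas) in `π`. -/
noncomputable def numOM (m : ℕ) (π : List Fm) : ℕ :=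
  {B : Fm | ((∃ (k : ℕ) (f : Fin k → Fm), B = Fm.or k f) ∨ B.LitMod m) ∧
    ∃ A ∈ π, Fm.IsSub B A}.ncard

end Pool.Agent.Helper21.AC0p
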