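import Pool.Agent.Helper21.Loc.Main
import Pool.Agent.Helper21.Mix.OvFinal

/-!
Asymptotics.
-/

namespace Pool.Agent.Helper21.Loc

open scoped BigOperators Classical
open Pool.Agent.Helper21.AC0p Pool.Agent.Helper21.Mix

theorem numOM_le_psize (m : ℕ) (π : List Fm) : numOM m π ≤ psize π := by
  unfold numOM
  have hsub : {B : Fm | ((∃ (k : ℕ) (f : Fin k → Fm), B = Fm.or k f) ∨ B.LitMod m) ∧
      ∃ A ∈ π, Fm.IsSub B A} ⊆ ((π.flatMap occs).toFinset : Set Fm) := by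
    rintro B ⟨_, A, hA, hBA⟩
    rw [Finset.mem_coe, List.mem_toFinset, List.mem_flatMap]
    exact ⟨A, hA, mem_occs hBA⟩
  refine (Set.ncard_le_ncard hsub (Finset.finite_toSet _)).trans ?_
  rw [Set.ncard_coe_finset]
  refine (List.toFinset_card_le _).trans ?_
  rw [List.length_flatMap]
  unfold psize
  have : (fun a => (occs a).length) = Fm.size := funext occs_length
  rw [this]

/-- The number of points is large. -/
theorem uN_large {q n : ℕ} (hq2 : 2 ≤ q) (hq3 : q ≤ 3) (hu : 1 ≤ uN q n) :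
    n ≤ 8 * (1 + q * uN q n) ^ q := by
  by_cases hlt : uN q n < n
  · have h1 : ¬ (1 + q * (uN q n + 1)) ^ q ≤ n := by
      refine Nat.findGreatest_is_greatest (P := fun u => (1 + q * u) ^ q ≤ n) (n := n)
        (k := uN q n + 1) ?_ (by omega)
      exact Nat.lt_succ_self _
    push Not at h1
    have h2 : 1 + q * (uN q n + 1) ≤ 2 * (1 + q * uN q n) := by
      have : q ≤ q * uN q n := Nat.le_mul_of_pos_right _ hu
      have e : 1 + q * (uN q n + 1) = 1 + q * uN q n + q := by ring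
      omega
    calc n ≤ (1 + q * (uN q n + 1)) ^ q := h1.le
      _ ≤ (2 * (1 + q * uN q n)) ^ q := Nat.pow_le_pow_left h2 _
      _ = 2 ^ q * (1 + q * uN q n) ^ q := mul_pow _ _ _
      _ ≤ 8 * (1 + q * uN q n) ^ q := by
          refine Nat.mul_le_mul_right _ ?_
          calc 2 ^ q ≤ 2 ^ 3 := Nat.pow_le_pow_right (by norm_num) hq3
            _ = 8 := by norm_num
  · push Not at hlt
    calc n ≤ uN q n := hlt
      _ ≤ q * uN q n := Nat.le_mul_of_pos_left _ (by omega)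
      _ ≤ 1 + q * uN q n := by omega
      _ ≤ (1 + q * uN q n) ^ q := Nat.le_self_pow (by omega) _
      _ ≤ 8 * (1 + q * uN q n) ^ q := by omega

/-- Discrete form of the lower bound. -/
theorem loc_discrete {p : ℕ} [hp : Fact p.Prime] {q c : ℕ} (hq2 : 2 ≤ q) (hq3 : q ≤ 3)
    (hc : 1 ≤ c)
    (hard : ∀ m w : ℕ, m % q = 1 → c ≤ w → c * w ≤ m →
      ∀ (V : Type) (_ : Fintype V) (U : Finset V), U.card = m →
      ∃ (X K : Type) (_ : Field K) (_ : CharP K p) (𝔉 : Filt X K)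
        (M : X → Finset (Finset V)),
        (∀ x, IsPM q (M x) ∧ supp (M x) ⊆ U) ∧
        (∀ B, ind K (fun x => decide (B ∈ M x)) ∈ 𝔉.LD 5) ∧
        ¬ Der 𝔉 {g | ∃ a ∈ U, g = ind K (fun x => decide (a ∉ supp (M x)))} w 1)
    {U m y z d cst : ℕ} (hz : 1 ≤ z) (hy : 2 ^ 16 ≤ y) (hcy : c * c ≤ y)
    (hU : y ^ 15 ^ (d + 1) ≤ U)
    (hshr : 2 * m * (1 + q * y ^ 15 ^ (d + 1)) ^ q ≤ (1 + q * U) ^ q)
    {R : List Rule} (hR : ∀ r ∈ R, r.Sound p) (hcst : ∀ r ∈ R, ruleCostL r ≤ cst)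
    (hcst2 : 2 ≤ cst)
    (hyz : c * (cst * ((2 * p) ^ d * (70 * (z ^ (d + 2))))) ≤ y)
    (hyd : (6 * d + 30) * z ≤ y)
    {π : List Fm} (hπ : Refutation R (countCNF q (1 + q * U)) π) (hd : ∀ A ∈ π, A.depth ≤ d)
    {G : Finset Fm} (hG : ∀ A ∈ π, (gsub G A).card + 1 ≤ z)
    (hgs : ∀ g ∈ G, g ∈ subs π) (hgv : ∀ i, Fm.var i ∉ G) (hgl : ∀ i, Fm.neg (.var i) ∉ G)
    (hfew : ∀ (k : ℕ) (f : Fin k → Fm), Fm.or k f ∈ subs π →
      ((Finset.univ.image f).filter (fun z => ¬ z.OverM m G)).card + 1 ≤ z)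
    (hnum : numOM m π < 2 ^ z) : False := by
  have hp1 : 1 ≤ p := hp.out.one_lt.le
  set u : ℕ → ℕ := fun i => y ^ 15 ^ (d + 1 - i) with hu
  have hu15 : ∀ i < d + 1, u (i + 1) ^ 15 ≤ u i := by
    intro i hi
    have h1 : u (i + 1) = y ^ 15 ^ (d + 1 - (i + 1)) := by simp [hu]
    rw [h1, ← pow_mul]
    have e : 15 ^ (d + 1 - (i + 1)) * 15 = 15 ^ (d + 1 - i) := by
      rw [← pow_succ]; congr 1; omega
    rw [e]
  have hyu : ∀ i, y ≤ u i := by
    intro i
    exact Nat.le_self_pow (by positivity) _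
  have huu : ∀ i < d + 1, u (i + 1) ≤ u i := by
    intro i hi
    exact (Nat.le_self_pow (by norm_num) _).trans (hu15 i hi)
  have hu0' : u 0 ≤ U := by simpa [hu] using hU
  have hule : ∀ i ≤ d + 1, u i ≤ U := by
    intro i
    induction i with
    | zero => intro _; exact hu0'
    | succ i ih => intro hi; exact (huu i (by omega)).trans (ih (by omega))
  have hs3 : q * (2 * z) ≤ 6 * z := by
    calc q * (2 * z) ≤ 3 * (2 * z) := Nat.mul_le_mul_right _ hq3
      _ = 6 * z := by ring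
  have hsy : q * (2 * z) * (d + 5) ≤ y := by
    calc q * (2 * z) * (d + 5) ≤ 6 * z * (d + 5) := Nat.mul_le_mul_right _ hs3
      _ = (6 * d + 30) * z := by ring
      _ ≤ y := hyd
  set s := q * (2 * z) with hs
  have hs1 : 1 ≤ s := Nat.mul_pos (by omega) (by omega)
  have hqs : q ≤ s := Nat.le_mul_of_pos_right _ (by omega)
  have hsy2 : s * (d + 2) + 3 * s ≤ y := by
    calc s * (d + 2) + 3 * s = s * (d + 5) := by ring
      _ ≤ y := hsy
  have hsd : s ≤ s * (d + 2) := Nat.le_mul_of_pos_right _ (by omega)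
  have hqk : ∀ i ≤ d + 1, q * (U - u i) + q * u i = q * U := by
    intro i hi
    rw [← mul_add, Nat.sub_add_cancel (hule i hi)]
  have h5 : 5 * (s + 1) ≤ 35 * z := by omega
  set κ := 2 * p * z with hκ
  set Dm := z * (κ ^ d * (5 * (s + 1))) with hDm
  have hz2 : z ≤ p * z := Nat.le_mul_of_pos_left _ (by omega)
  have hκz : 2 * z ≤ κ := by
    rw [hκ, mul_assoc]; omega
  have hκpos : 1 ≤ κ ^ d := Nat.one_le_pow _ _ (by omega)
  have hwmain : ∀ b ≤ cst, b * Dm ≤ y / c := by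
    intro b hb
    rw [Nat.le_div_iff_mul_le (by omega)]
    calc b * Dm * c ≤ cst * (z * (κ ^ d * (70 * z))) * c := by
          rw [hDm]
          exact Nat.mul_le_mul_right _ (Nat.mul_le_mul hb
            (Nat.mul_le_mul_left _ (Nat.mul_le_mul_left _ (by omega))))
      _ = c * (cst * ((2 * p) ^ d * (70 * (z ^ (d + 2))))) := by rw [hκ, mul_pow]; ring
      _ ≤ y := hyz
  refine loc_core (N := 1 + q * U) (s := s) (j0 := 2 * z) (j1 := z) (m := m) (g0 := z - 1)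
    (w := y / c) (t := z - 1) (d := d)
    (κ := κ) (Dm := Dm) (by omega : 1 ≤ q) hard (V := Fin (1 + q * U))
    (blk := blkOf q (1 + q * U))
    (fun i B h => blkOf_card h) (Fintype.card_fin _)
    (Fs := countCNF q (1 + q * U)) (fun C hC M hM hcc => not_foM_clause (by omega) hC hM hcc)
    ?_ hs1 hqs (fun i => U - u i) (fun i => 1 + q * u i) ?_ ?_ ?_ ?_ ?_ le_rfl hz ?_ ?_ ?_ ?_ ?_
    (G := G) ?_ ?_ ?_ hR ?_ ?_ hπ hd hgs hgv hgl ?_ ?_ ?_ ?_
  · rw [Nat.add_mul_mod_self_left]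
    exact Nat.mod_eq_of_lt (by omega)
  · intro i hi
    have := huu i hi
    omega
  · intro i hi
    have h1 := hyu i
    have h2 := hule i hi
    have h3 : q * (U - u i + s + 1) ≤ q * U := Nat.mul_le_mul_left _ (by omega)
    omega
  · intro i hi
    have := hqk (i + 1) (by omega)
    omega
  · intro i; simp
  · intro i hi
    have h1 := big_aux (q := q) (s := s) (v := u (i + 1)) hq3
      (by have := hyu (i + 1); omega) (hy.trans (hyu (i + 1)))
    have h2 := hu15 i hi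
    have h3 := hule i (by omega)
    have h4 := hule (i + 1) (by omega)
    have h6 := huu i hi
    refine le_trans ?_ (by omega : u i - u (i + 1) ≤ U - u (i + 1) + 1 - (U - u i))
    omega
  · exact Nat.mul_le_mul_left _ (by omega)
  · have h1 := hyu (d + 1)
    have h2 := hule (d + 1) le_rfl
    have h3 : q * (U - u (d + 1) + 2 * s + 1) + q * s * (d + 2) =
        q * (U - u (d + 1) + 2 * s + 1 + s * (d + 2)) := by ring
    rw [h3]
    have h4 : q * (U - u (d + 1) + 2 * s + 1 + s * (d + 2)) ≤ q * U :=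
      Nat.mul_le_mul_left _ (by omega)
    omega
  · rw [Nat.le_div_iff_mul_le (by omega)]; exact hcy
  · have h1 := hyu (d + 1)
    have h2 := hqk (d + 1) le_rfl
    have h3 : c * (y / c) ≤ y := Nat.mul_div_le _ _
    have h4 : u (d + 1) ≤ q * u (d + 1) := Nat.le_mul_of_pos_left _ (by omega)
    omega
  · have h1 := hwmain 1 (by omega)
    rw [one_mul] at h1
    refine le_trans ?_ h1
    calc 5 * (s + 1) ≤ κ ^ d * (5 * (s + 1)) := Nat.le_mul_of_pos_left _ (by omega)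
      _ ≤ Dm := Nat.le_mul_of_pos_left _ (by omega)
  · rw [hκ]
    calc p ≤ p * (2 * z) := Nat.le_mul_of_pos_right _ (by omega)
      _ = 2 * p * z := by ring
  · omega
  · rw [hDm]
    obtain ⟨z', rfl⟩ : ∃ z', z = z' + 1 := ⟨z - 1, by omega⟩
    rw [Nat.add_sub_cancel]
    exact le_of_eq (by ring)
  · intro r hr; exact hwmain _ (hcst r hr)
  · exact hwmain 2 hcst2
  · intro A hA
    have := hG A hA
    omega
  · intro k f hf
    have := hfew k f hf
    omega
  · calc 2 ^ (z - 1) * numOM m π < 2 ^ (z - 1) * 2 ^ z :=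
          Nat.mul_lt_mul_of_pos_left hnum (by positivity)
      _ = 2 ^ (z - 1 + z) := by rw [pow_add]
      _ ≤ 2 ^ (2 * z) := Nat.pow_le_pow_right (by norm_num) (by omega)
  · have e1 : 1 + q * U - q * (U - u 0) = 1 + q * u 0 := by
      have := hqk 0 (by omega)
      omega
    have e2 : u 0 = y ^ 15 ^ (d + 1) := by simp [hu]
    change numOM m π * m ^ z * (1 + q * U - q * (U - u 0)) ^ (q * z) < (1 + q * U) ^ (q * z)
    rw [e1, e2]
    rcases Nat.eq_zero_or_pos m with hm | hm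
    · rw [hm, zero_pow (by omega), mul_zero, zero_mul]
      positivity
    · calc numOM m π * m ^ z * (1 + q * y ^ 15 ^ (d + 1)) ^ (q * z) <
            2 ^ z * m ^ z * (1 + q * y ^ 15 ^ (d + 1)) ^ (q * z) := by
            refine Nat.mul_lt_mul_of_pos_right ?_ (by positivity)
            exact Nat.mul_lt_mul_of_pos_right hnum (by positivity)
        _ = (2 * m * (1 + q * y ^ 15 ^ (d + 1)) ^ q) ^ z := by
            rw [mul_pow, mul_pow, ← pow_mul]
        _ ≤ ((1 + q * U) ^ q) ^ z := Nat.pow_le_pow_left hshr _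
        _ = (1 + q * U) ^ (q * z) := by rw [← pow_mul]

theorem card_filter_overM {m : ℕ} {G : Finset Fm} {k : ℕ} (f : Fin k → Fm) :
    ((Finset.univ.image f).filter (fun z => ¬ z.OverM m G)).card =
      {B | B ∈ Set.range f ∧ ¬ B.OverM m G}.ncard := by
  rw [← Set.ncard_coe_finset]
  congr 1
  ext B
  simp

theorem card_gsub {G : Finset Fm} {A : Fm} :
    (gsub G A).card = {B | B ∈ G ∧ Fm.IsSub B A}.ncard := by
  rw [← Set.ncard_coe_finset]
  congr 1
  ext B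
  rw [Finset.mem_coe, mem_gsub]
  rfl

theorem overM_filter {m : ℕ} {π : List Fm} {G : Finset Fm} (A : Fm) : A ∈ subs π →
    A.OverM m G →
    A.OverM m (G.filter (fun g => g ∈ subs π ∧ (∀ i, g ≠ .var i) ∧ ∀ i, g ≠ .neg (.var i))) := by
  induction A with
  | var i => intro _ _; trivial
  | neg A ih =>
    intro hA hO
    by_cases hv : ∃ i, A = .var i
    · obtain ⟨i, rfl⟩ := hv
      exact Or.inr trivial
    · rcases hO with h | h
      · left
        rw [Finset.mem_filter]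
        refine ⟨h, hA, fun i e => Fm.noConfusion e, fun i e => hv ⟨i, Fm.neg.inj e⟩⟩
      · exact Or.inr (ih (subs_trans hA (Fm.IsSub.neg Fm.IsSub.refl)) h)
  | or k f ih =>
    intro hA hO
    rcases hO with h | h
    · left
      rw [Finset.mem_filter]
      exact ⟨h, hA, fun i e => Fm.noConfusion e, fun i e => Fm.noConfusion e⟩
    · exact Or.inr (fun i => ih i (subs_trans hA (Fm.IsSub.or i Fm.IsSub.refl)) (h i))
  | mod k f ih =>
    intro hA hO
    rcases hO with h | h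
    · left
      rw [Finset.mem_filter]
      exact ⟨h, hA, fun i e => Fm.noConfusion e, fun i e => Fm.noConfusion e⟩
    · exact Or.inr h

set_option maxHeartbeats 4000000 in
/-- The lower bound for refutations with few disjuncts that are not over a set that has few
members in each line. -/
theorem few_local (p : ℕ) (hp : p.Prime) :
    ∃ F : ℕ → List Clause,
      (∀ n, (∀ C ∈ F n, C.length ≤ n + 2 ∧ ∀ l ∈ C, l.1 < n) ∧ (F n).length ≤ (n + 1) ^ 2 ∧
        Unsat (F n)) ∧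
      ∀ R : List Rule, (∀ r ∈ R, r.Sound p) → ∀ d : ℕ, ∀ δ : ℝ, 0 < δ →
        ∃ ε : ℝ, 0 < ε ∧ ∃ n₀ : ℕ, ∀ n : ℕ, n₀ ≤ n → ∀ π : List Fm, Refutation R (F n) π →
          (∀ A ∈ π, A.depth ≤ d) → ∀ m : ℕ, (m : ℝ) ≤ (n : ℝ) ^ (1 - δ) → ∀ G : Finset Fm,
          (∀ A ∈ π, ({B | B ∈ G ∧ Fm.IsSub B A}.ncard : ℝ) ≤ (n : ℝ) ^ ε) →
          (∀ (k : ℕ) (f : Fin k → Fm), (∃ A ∈ π, Fm.IsSub (Fm.or k f) A) →
            ({B | B ∈ Set.range f ∧ ¬ B.OverM m G}.ncard : ℝ) ≤ (n : ℝ) ^ ε) →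
          (2 : ℝ) ^ ((n : ℝ) ^ ε) ≤ numOM m π ∧ (2 : ℝ) ^ ((n : ℝ) ^ ε) ≤ psize π := by
  have : Fact p.Prime := ⟨hp⟩
  obtain ⟨q, c, hqp, hq3, hc1, hard⟩ := count_hard p
  have hq2 := hqp.two_le
  refine ⟨fun n => countCNF q (1 + q * uN q n), ?_, ?_⟩
  · intro n
    obtain ⟨h1, h2⟩ := choose_uN hq2 n
    refine ⟨?_, ?_, ?_⟩
    · intro C hC
      refine ⟨(countCNF_width hC).trans (by omega), ?_⟩
      intro l hl
      exact (countCNF_lit hC hl).trans_le h1
    · refine (countCNF_length _ _).trans ?_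
      have : (1 + q * uN q n).choose q * (1 + q * uN q n).choose q ≤ n * n :=
        Nat.mul_le_mul h1 h1
      calc _ ≤ (n + 1) + n * n := Nat.add_le_add h2 this
        _ ≤ (n + 1) ^ 2 := by nlinarith
    · refine countCNF_unsat ?_
      rw [Nat.add_mul_mod_self_left]
      exact Nat.mod_eq_of_lt (by omega)
  intro R hR d δ hδ
  set cst : ℕ := (R.map ruleCostL).sum + 2 with hcst
  have hcstR : ∀ r ∈ R, ruleCostL r ≤ cst := by
    intro r hr
    have := List.le_sum_of_mem (List.mem_map.2 ⟨r, hr, rfl⟩ : ruleCostL r ∈ R.map ruleCostL)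
    omega
  set E : ℕ := 15 ^ (d + 1) with hE
  have hE1 : 1 ≤ E := Nat.one_le_pow _ _ (by norm_num)
  set δ' : ℝ := min δ 1 with hδ'
  have hδ'0 : 0 < δ' := lt_min hδ one_pos
  have hδ'1 : δ' ≤ 1 := min_le_right _ _
  have hδ'δ : δ' ≤ δ := min_le_left _ _
  set β : ℝ := δ' / (6 * E) with hβ
  have hE0 : (0 : ℝ) < E := by exact_mod_cast hE1
  have hβ0 : 0 < β := by positivity
  set ε : ℝ := β / (2 * (d + 2)) with hε
  have hε0 : 0 < ε := by positivity
  -- all constants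
  set K1 : ℕ := c * (cst * ((2 * p) ^ d * 70)) + (6 * d + 30) with hK1
  have hlarge : ∀ᶠ n : ℕ in Filter.atTop, (1 : ℝ) ≤ n ∧
      (2 : ℝ) ^ 17 ≤ (n : ℝ) ^ β ∧ (2 * (c * c) : ℝ) ≤ (n : ℝ) ^ β ∧
      (K1 : ℝ) * 2 ^ (d + 3) ≤ (n : ℝ) ^ (β / 2) ∧ (64 : ℝ) ≤ (n : ℝ) ^ (1 / 2 : ℝ) ∧
      (1024 : ℝ) ≤ (n : ℝ) ^ (δ' / 2) := by
    have h1 : ∀ b : ℝ, 0 < b → Filter.Tendsto (fun n : ℕ => ((n : ℝ)) ^ b) Filter.atTop
        Filter.atTop := fun b hb => (tendsto_rpow_atTop hb).comp tendsto_natCast_atTop_atTop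
    have h2 : Filter.Tendsto (fun n : ℕ => ((n : ℝ))) Filter.atTop Filter.atTop :=
      tendsto_natCast_atTop_atTop
    filter_upwards [h2.eventually_ge_atTop 1, (h1 β hβ0).eventually_ge_atTop (2 ^ 17),
      (h1 β hβ0).eventually_ge_atTop (2 * (c * c) : ℝ),
      (h1 (β / 2) (by positivity)).eventually_ge_atTop ((K1 : ℝ) * 2 ^ (d + 3)),
      (h1 (1 / 2) (by norm_num)).eventually_ge_atTop 64,
      (h1 (δ' / 2) (by positivity)).eventually_ge_atTop 1024] with n a1 a2 a3 a4 a5 a6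
    exact ⟨a1, a2, a3, a4, a5, a6⟩
  obtain ⟨n₀, hn₀⟩ := Filter.eventually_atTop.1 hlarge
  refine ⟨ε, hε0, n₀, ?_⟩
  intro n hn π hπ hdep m hm G hG hfew
  obtain ⟨hx1, hx17, hxc, hxK, hx64, hx1024⟩ := hn₀ n hn
  suffices hmain : (2 : ℝ) ^ ((n : ℝ) ^ ε) ≤ numOM m π from
    ⟨hmain, hmain.trans (by exact_mod_cast numOM_le_psize m π)⟩
  by_contra hcon
  push Not at hcon
  set x : ℝ := (n : ℝ) with hx
  have hx0 : 0 < x := by linarith
  have hxe1 : 1 ≤ x ^ ε := Real.one_le_rpow hx1 hε0.le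
  have hxe0 : 0 ≤ x ^ ε := by linarith
  set z : ℕ := ⌊x ^ ε⌋₊ + 1 with hz
  set y : ℕ := ⌊x ^ β⌋₊ with hy
  have hxb1 : 1 ≤ x ^ β := Real.one_le_rpow hx1 hβ0.le
  have hyle : (y : ℝ) ≤ x ^ β := Nat.floor_le (by linarith)
  have hyge : x ^ β / 2 ≤ y := by
    have h1 := Nat.lt_floor_add_one (x ^ β)
    have h2 : (2 : ℝ) ≤ x ^ β := by linarith
    rw [← hy] at h1
    linarith
  have hzle : (z : ℝ) ≤ 2 * x ^ ε := by
    rw [hz]; push_cast
    have := Nat.floor_le hxe0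
    linarith
  have hzge : x ^ ε ≤ z := by
    rw [hz]; push_cast
    exact (Nat.lt_floor_add_one (x ^ ε)).le
  have hz1 : 1 ≤ z := by omega
  -- main inequality
  have hmain1 : ((K1 * z ^ (d + 2) : ℕ) : ℝ) ≤ y := by
    push_cast
    calc (K1 : ℝ) * (z : ℝ) ^ (d + 2) ≤ K1 * (2 * x ^ ε) ^ (d + 2) := by gcongr
      _ = (K1 * 2 ^ (d + 3)) * (x ^ ε) ^ (d + 2) / 2 := by rw [mul_pow]; ring
      _ ≤ x ^ (β / 2) * (x ^ ε) ^ (d + 2) / 2 := by gcongr
      _ = x ^ β / 2 := by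
          rw [← Real.rpow_natCast, ← Real.rpow_mul hx0.le, ← Real.rpow_add hx0]
          congr 2
          rw [hε]
          push_cast
          field_simp
          ring
      _ ≤ y := hyge
  have hmain2 : K1 * z ^ (d + 2) ≤ y := by exact_mod_cast hmain1
  have hzpow : z ≤ z ^ (d + 2) := Nat.le_self_pow (by omega) _
  have hy1 : 1 ≤ y := by
    have : (1 : ℝ) ≤ y := by linarith
    exact_mod_cast this
  have hyE : (y : ℝ) ^ (15 ^ (d + 1)) ≤ x ^ (δ' / 6) := by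
    calc (y : ℝ) ^ (15 ^ (d + 1)) ≤ (x ^ β) ^ (15 ^ (d + 1)) := by gcongr
      _ = x ^ (δ' / 6) := by
          rw [← Real.rpow_natCast, ← Real.rpow_mul hx0.le]
          congr 1
          rw [hβ, hE]
          field_simp
  have hyE3 : ((y : ℝ) ^ (15 ^ (d + 1))) ^ 3 ≤ x ^ (δ' / 2) := by
    calc ((y : ℝ) ^ (15 ^ (d + 1))) ^ 3 ≤ (x ^ (δ' / 6)) ^ 3 := by gcongr
      _ = x ^ (δ' / 2) := by
          rw [← Real.rpow_natCast, ← Real.rpow_mul hx0.le]
          congr 1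
          push_cast
          ring
  have hu0 : y ^ 15 ^ (d + 1) ≤ uN q n := by
    refine le_uN hq3 (Nat.one_le_pow _ _ hy1) ?_
    have h1 : ((64 * (y ^ 15 ^ (d + 1)) ^ 3 : ℕ) : ℝ) ≤ x := by
      push_cast
      calc (64 : ℝ) * ((y : ℝ) ^ (15 ^ (d + 1))) ^ 3 ≤ x ^ (1 / 2 : ℝ) * x ^ (δ' / 2) := by
            gcongr
        _ ≤ x ^ (1 / 2 : ℝ) * x ^ (1 / 2 : ℝ) := by
            gcongr
        _ = x := by
            rw [← Real.rpow_add hx0]
            norm_num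
    rw [hx] at h1
    exact_mod_cast h1
  have hYpos : 1 ≤ y ^ 15 ^ (d + 1) := Nat.one_le_pow _ _ hy1
  have hshr : 2 * m * (1 + q * y ^ 15 ^ (d + 1)) ^ q ≤ (1 + q * uN q n) ^ q := by
    have h1 : (1 + q * y ^ 15 ^ (d + 1)) ^ q ≤ 64 * (y ^ 15 ^ (d + 1)) ^ 3 := by
      have h2 : 1 + q * y ^ 15 ^ (d + 1) ≤ 4 * y ^ 15 ^ (d + 1) := by
        have : q * y ^ 15 ^ (d + 1) ≤ 3 * y ^ 15 ^ (d + 1) := Nat.mul_le_mul_right _ hq3
        omega
      calc (1 + q * y ^ 15 ^ (d + 1)) ^ q ≤ (4 * y ^ 15 ^ (d + 1)) ^ q :=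
            Nat.pow_le_pow_left h2 _
        _ ≤ (4 * y ^ 15 ^ (d + 1)) ^ 3 := Nat.pow_le_pow_right (by omega) hq3
        _ = 64 * (y ^ 15 ^ (d + 1)) ^ 3 := by ring
    have h2 : n ≤ 8 * (1 + q * uN q n) ^ q := uN_large hq2 hq3 (hYpos.trans hu0)
    have h3 : ((8 * (2 * m * (64 * (y ^ 15 ^ (d + 1)) ^ 3)) : ℕ) : ℝ) ≤ x := by
      push_cast
      calc (8 : ℝ) * (2 * m * (64 * ((y : ℝ) ^ (15 ^ (d + 1))) ^ 3)) =
            1024 * (m * ((y : ℝ) ^ (15 ^ (d + 1))) ^ 3) := by ring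
        _ ≤ x ^ (δ' / 2) * (x ^ (1 - δ) * x ^ (δ' / 2)) := by gcongr
        _ ≤ x ^ (δ' / 2) * (x ^ (1 - δ') * x ^ (δ' / 2)) := by
            gcongr
        _ = x := by
            rw [← Real.rpow_add hx0, ← Real.rpow_add hx0]
            have : δ' / 2 + (1 - δ' + δ' / 2) = 1 := by ring
            rw [this, Real.rpow_one]
    have h4 : 8 * (2 * m * (64 * (y ^ 15 ^ (d + 1)) ^ 3)) ≤ n := by
      rw [hx] at h3
      exact_mod_cast h3
    have h5 : 2 * m * (1 + q * y ^ 15 ^ (d + 1)) ^ q ≤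
        2 * m * (64 * (y ^ 15 ^ (d + 1)) ^ 3) := Nat.mul_le_mul_left _ h1
    omega
  set G' : Finset Fm :=
    G.filter (fun g => g ∈ subs π ∧ (∀ i, g ≠ .var i) ∧ ∀ i, g ≠ .neg (.var i)) with hG'
  refine loc_discrete (p := p) (m := m) (z := z) (y := y) (d := d) (cst := cst) hq2 hq3 hc1 hard
    hz1 ?_ ?_ hu0 hshr hR hcstR (by omega) ?_ ?_ hπ hdep (G := G') ?_ ?_ ?_ ?_ ?_ ?_
  · have : ((2 ^ 16 : ℕ) : ℝ) ≤ y := by
      push_cast
      refine le_trans ?_ hyge
      linarith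
    exact_mod_cast this
  · have : ((c * c : ℕ) : ℝ) ≤ y := by
      push_cast
      refine le_trans ?_ hyge
      linarith
    exact_mod_cast this
  · refine le_trans ?_ hmain2
    calc c * (cst * ((2 * p) ^ d * (70 * z ^ (d + 2)))) =
          c * (cst * ((2 * p) ^ d * 70)) * z ^ (d + 2) := by ring
      _ ≤ K1 * z ^ (d + 2) := Nat.mul_le_mul_right _ (by omega)
  · refine le_trans ?_ hmain2
    exact Nat.mul_le_mul (by omega) hzpow
  · intro A hA
    have h1 := hG A hA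
    rw [← card_gsub] at h1
    have h2 : (gsub G A).card ≤ ⌊x ^ ε⌋₊ := Nat.le_floor h1
    have h3 : (gsub G' A).card ≤ (gsub G A).card := by
      refine Finset.card_le_card ?_
      intro g hg
      rw [mem_gsub, hG', Finset.mem_filter] at hg
      rw [mem_gsub]
      exact ⟨hg.1.1, hg.2⟩
    omega
  · intro g hg
    rw [hG', Finset.mem_filter] at hg
    exact hg.2.1
  · intro i hi
    rw [hG', Finset.mem_filter] at hi
    exact hi.2.2.1 i rfl
  · intro i hi
    rw [hG', Finset.mem_filter] at hi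
    exact hi.2.2.2 i rfl
  · intro k f hf
    have h1 := hfew k f hf
    rw [← card_filter_overM] at h1
    have h2 := Nat.le_floor h1
    have h3 : ((Finset.univ.image f).filter (fun z => ¬ z.OverM m G')).card ≤
        ((Finset.univ.image f).filter (fun z => ¬ z.OverM m G)).card := by
      refine Finset.card_le_card ?_
      intro B hB
      rw [Finset.mem_filter, Finset.mem_image] at hB ⊢
      refine ⟨hB.1, fun hO => hB.2 ?_⟩
      obtain ⟨⟨i, _, rfl⟩, _⟩ := hB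
      exact overM_filter (f i) (subs_trans hf (Fm.IsSub.or i Fm.IsSub.refl)) hO
    omega
  · have h1 : (numOM m π : ℝ) < (2 : ℝ) ^ z := by
      refine hcon.trans_le ?_
      rw [← Real.rpow_natCast]
      exact Real.rpow_le_rpow_of_exponent_le (by norm_num) hzge
    exact_mod_cast h1

end Pool.Agent.Helper21.Loc
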