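import Pool.Agent.Helper21.Mix.Force
import Pool.Agent.Helper21.Loc.Defs

/-!
The forcing relation for formulas in which `MOD_p` is applied to literals only.
-/

namespace Pool.Agent.Helper21.Loc

open scoped BigOperators Classical
open Pool.Agent.Helper21.AC0p Pool.Agent.Helper21.Mix

set_option linter.unusedSectionVars false

variable {V : Type} [Fintype V]

/-- `FoM A b M`: the condition `M` forces `A` to have value `b`. -/
def FoM (p q s : ℕ) (blk : ℕ → Option (Finset V)) : Fm → Bool → Finset (Finset V) → Prop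
  | .var i, true, M => ∃ B, blk i = some B ∧ B ∈ M
  | .var i, false, M => ∀ B, blk i = some B → ∃ B' ∈ M, B' ≠ B ∧ ¬ Disjoint B' B
  | .neg A, b, M => FoM p q s blk A (!b) M
  | .or _ f, true, M => ∃ i, FoM p q s blk (f i) true M
  | .or k f, false, M => ∀ M', M ⊆ M' → IsPM q M' →
      q * M'.card + q * s * ordep (.or k f) ≤ Fintype.card V → ∀ i, ¬ FoM p q s blk (f i) true M'
  | .mod k f, b, M => ∃ S : Finset (Fin k), (∀ i ∈ S, FoM p q s blk (f i) true M) ∧
      (∀ i, i ∉ S → FoM p q s blk (f i) false M) ∧ b = decide (p ∣ S.card)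

variable {p q s : ℕ} {blk : ℕ → Option (Finset V)}

theorem FoM_mono (A : Fm) : ∀ (b : Bool) {M M' : Finset (Finset V)}, M ⊆ M' →
    FoM p q s blk A b M → FoM p q s blk A b M' := by
  induction A with
  | var i =>
    intro b M M' hM h
    cases b with
    | true =>
      obtain ⟨B, h1, h2⟩ := h
      exact ⟨B, h1, hM h2⟩
    | false =>
      intro B hB
      obtain ⟨B', h1, h2⟩ := h B hB
      exact ⟨B', hM h1, h2⟩
  | neg A ih =>
    intro b M M' hM h
    simp only [FoM] at h ⊢
    exact ih _ hM h
  | or k f ih =>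
    intro b M M' hM h
    cases b with
    | true =>
      obtain ⟨i, hi⟩ := h
      exact ⟨i, ih i true hM hi⟩
    | false =>
      intro M'' hM'' hPM hc i
      exact h M'' (hM.trans hM'') hPM hc i
  | mod k f ih =>
    intro b M M' hM h
    obtain ⟨S, h1, h2, h3⟩ := h
    exact ⟨S, fun i hi => ih i true hM (h1 i hi), fun i hi => ih i false hM (h2 i hi), h3⟩

theorem FoM_cons (A : Fm) : ∀ {M : Finset (Finset V)}, IsPM q M →
    q * M.card + q * s * ordep A ≤ Fintype.card V → FoM p q s blk A true M →
    FoM p q s blk A false M → False := by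
  induction A with
  | var i =>
    intro M hM _ h1 h2
    obtain ⟨B, hB, hBM⟩ := h1
    obtain ⟨B', hB', hne, hd⟩ := h2 B hB
    exact hd (hM.2 B' hB' B hBM hne)
  | neg A ih =>
    intro M hM hc h1 h2
    simp only [FoM, Bool.not_true, Bool.not_false] at h1 h2
    exact ih hM (by simpa [ordep] using hc) h2 h1
  | or k f ih =>
    intro M hM hc h1 h2
    obtain ⟨i, hi⟩ := h1
    exact h2 M (le_refl _) hM hc i hi
  | mod k f ih =>
    intro M hM hc h1 h2
    obtain ⟨S, a1, a2, a3⟩ := h1
    obtain ⟨S', b1, b2, b3⟩ := h2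
    have hroom : ∀ i, q * M.card + q * s * ordep (f i) ≤ Fintype.card V := by
      intro i
      refine le_trans (Nat.add_le_add_left (Nat.mul_le_mul_left _ ?_) _) hc
      simp only [ordep]
      exact Finset.le_sup (f := fun i => ordep (f i)) (Finset.mem_univ i)
    have hS : S = S' := by
      ext i
      constructor
      · intro hi
        by_contra hi'
        exact ih i hM (hroom i) (a1 i hi) (b2 i hi')
      · intro hi
        by_contra hi'
        exact ih i hM (hroom i) (b1 i hi) (a2 i hi')
    subst hS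
    rw [← a3] at b3
    exact absurd b3 (by simp)

/-! ### Disjunctions -/

/-- The formula is decided. -/
def DcM (p q s : ℕ) (blk : ℕ → Option (Finset V)) (A : Fm) (M : Finset (Finset V)) : Prop :=
  FoM p q s blk A true M ∨ FoM p q s blk A false M

theorem DcM_mono {A : Fm} (M M' : Finset (Finset V)) (hM : M ⊆ M') (h : DcM p q s blk A M) :
    DcM p q s blk A M' := by
  rcases h with h | h
  · exact Or.inl (FoM_mono A _ hM h)
  · exact Or.inr (FoM_mono A _ hM h)

/-- The small conditions that make a disjunction true. -/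
noncomputable def termsM (p q s : ℕ) (blk : ℕ → Option (Finset V)) (ρ : Finset (Finset V))
    {k : ℕ} (f : Fin k → Fm) : List (Finset (Finset V)) :=
  (Finset.univ.filter (fun t : Finset (Finset V) => t.card ≤ s ∧ IsPM q (ρ ∪ t) ∧
    ∃ i, FoM p q s blk (f i) true (ρ ∪ t))).toList

theorem mem_termsM {ρ t : Finset (Finset V)} {k : ℕ} {f : Fin k → Fm} :
    t ∈ termsM p q s blk ρ f ↔ t.card ≤ s ∧ IsPM q (ρ ∪ t) ∧
      ∃ i, FoM p q s blk (f i) true (ρ ∪ t) := by
  simp [termsM]

theorem decM_or (hq : 1 ≤ q) {ρ : Finset (Finset V)} {k : ℕ} {f : Fin k → Fm}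
    (hf : ∀ i, Dec q (DcM p q s blk (f i)) s ρ)
    {M : Finset (Finset V)} (hρM : ρ ⊆ M) (hM : IsPM q M)
    (hc : q * (M.card + s + 1) ≤ Fintype.card V)
    (hnl : ¬ Long q (termsM p q s blk ρ f) s M) : Dec q (DcM p q s blk (.or k f)) s M := by
  refine dec_of_not_long hq (F := termsM p q s blk ρ f) ?_ (ρ := ρ) ?_ ?_ s M hρM hM hc hnl
  · intro t ht B hB
    rw [mem_termsM] at ht
    exact ht.2.1.1 B (Finset.mem_union_right _ hB)
  · intro M' hρM' _ hnone
    right
    intro M'' hM'' hPM hc' i hi
    have hn := first_none hnone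
    have hod : 1 ≤ ordep (.or k f) := by simp [ordep]
    have e1 : q * s ≤ q * s * ordep (.or k f) := Nat.le_mul_of_pos_right _ hod
    obtain ⟨t, h1, h2, h3⟩ := (hf i).follow hq (hρM'.trans hM'') hPM (by omega)
    have hρt : ρ ∪ t ⊆ M'' ∪ t := Finset.union_subset_union_left (hρM'.trans hM'')
    rcases h3 with h3 | h3
    · refine hn t ?_ ?_
      · rw [mem_termsM]
        exact ⟨h1, h2.mono hρt, i, h3⟩
      · refine h2.mono ?_
        rw [Finset.union_comm]
        exact Finset.union_subset_union_left hM''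
    · refine FoM_cons (f i) h2 ?_ (FoM_mono _ _ Finset.subset_union_left hi)
        (FoM_mono _ _ hρt h3)
      have hle := ordep_lt (f := f) i
      have e2 : q * s * ordep (f i) + q * s ≤ q * s * ordep (.or k f) := by
        calc q * s * ordep (f i) + q * s = q * s * (ordep (f i) + 1) := by ring
          _ ≤ _ := Nat.mul_le_mul_left _ hle
      have e3 : q * (M'' ∪ t).card ≤ q * M''.card + q * s := by
        rw [← mul_add]
        exact Nat.mul_le_mul_left _ ((Finset.card_union_le _ _).trans (by omega))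
      omega
  · intro M' t hρM' _ hfirst htM'
    have ht := (first_some hfirst).1
    rw [mem_termsM] at ht
    obtain ⟨_, _, i, hi⟩ := ht
    exact Or.inl ⟨i, FoM_mono _ _ (Finset.union_subset hρM' htM') hi⟩

theorem decM_neg {A : Fm} {M : Finset (Finset V)} {s' : ℕ} (h : Dec q (DcM p q s blk A) s' M) :
    Dec q (DcM p q s blk (.neg A)) s' M := by
  induction h with
  | leaf h =>
    refine Dec.leaf ?_
    rcases h with h | h
    · exact Or.inr h
    · exact Or.inl h
  | node a ha _ ih => exact Dec.node a ha ih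

/-- A variable whose block meets the support is decided. -/
theorem dcM_var {i : ℕ} {M : Finset (Finset V)}
    (h : ∀ B, blk i = some B → ¬ Disjoint (supp M) B) : DcM p q s blk (.var i) M := by
  rcases hb : blk i with _ | B
  · right
    intro B hB
    rw [hb] at hB
    exact absurd hB (by simp)
  · have h1 := h B hb
    rw [Finset.not_disjoint_iff] at h1
    obtain ⟨a, ha, haB⟩ := h1
    rw [mem_supp] at ha
    obtain ⟨B', hB', haB'⟩ := ha
    by_cases hBB' : B' = B
    · left
      exact ⟨B, hb, hBB' ▸ hB'⟩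
    · right
      intro C hC
      rw [hb, Option.some_inj] at hC
      subst hC
      exact ⟨B', hB', hBB', fun hd => Finset.disjoint_left.1 hd haB' haB⟩

theorem decM_var (hq : 1 ≤ q) (hs : 1 ≤ s) (hblk : ∀ i B, blk i = some B → B.card = q) (i : ℕ)
    (M : Finset (Finset V)) : Dec q (DcM p q s blk (.var i)) s M := by
  by_cases h : ∀ B, blk i = some B → ¬ Disjoint (supp M) B
  · exact Dec.leaf (dcM_var h)
  · push Not at h
    obtain ⟨B, hB, hd⟩ := h
    have hBq := hblk i B hB
    obtain ⟨a, ha⟩ := Finset.card_pos.1 (by omega : 0 < B.card)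
    have haM : a ∉ supp M := fun h => Finset.disjoint_left.1 hd h ha
    obtain ⟨s', rfl⟩ : ∃ s', s = s' + 1 := ⟨s - 1, by omega⟩
    refine Dec.node a haM (fun B' haB' _ _ => Dec.leaf (dcM_var ?_))
    intro C hC hdC
    rw [hB, Option.some_inj] at hC
    subst hC
    exact Finset.disjoint_left.1 hdC (mem_supp.2 ⟨B', Finset.mem_insert_self _ _, haB'⟩) ha

/-- Querying the points of a set. -/
theorem dec_cover (hq : 1 ≤ q) {P : Finset (Finset V) → Prop} (C : Finset V) :
    ∀ {s : ℕ} {M : Finset (Finset V)}, C.card ≤ s → IsPM q M →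
    (∀ M', M ⊆ M' → IsPM q M' → C ⊆ supp M' → P M') → Dec q P s M := by
  induction C using Finset.induction_on with
  | empty =>
    intro s M _ hM h
    exact Dec.leaf (h M (le_refl _) hM (by simp))
  | insert a C ha ih =>
    intro s M hs hM h
    rw [Finset.card_insert_of_notMem ha] at hs
    by_cases haM : a ∈ supp M
    · refine ih (by omega) hM (fun M' h1 h2 h3 => h M' h1 h2 ?_)
      exact Finset.insert_subset (supp_mono h1 haM) h3
    · obtain ⟨s', rfl⟩ : ∃ s', s = s' + 1 := ⟨s - 1, by omega⟩
      refine Dec.node a haM (fun B haB hBq hBd => ?_)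
      refine ih (by omega) (hM.insert hBq hBd) (fun M' h1 h2 h3 => ?_)
      refine h M' ((Finset.subset_insert _ _).trans h1) h2 (Finset.insert_subset ?_ h3)
      exact mem_supp.2 ⟨B, h1 (Finset.mem_insert_self _ _), haB⟩

/-- The block of a literal. -/
def litIdx : Fm → ℕ
  | .var i => i
  | .neg (.var i) => i
  | _ => 0

theorem dcM_lit {A : Fm} (hA : A.IsLit) {M : Finset (Finset V)}
    (h : ∀ B, blk (litIdx A) = some B → ¬ Disjoint (supp M) B) : DcM p q s blk A M := by
  obtain ⟨i, rfl | rfl⟩ := hA
  · exact dcM_var h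
  · rcases dcM_var (p := p) (q := q) (s := s) (blk := blk) (i := i) (M := M) h with h1 | h1
    · exact Or.inr h1
    · exact Or.inl h1

theorem dcM_mod {k : ℕ} {f : Fin k → Fm} {M : Finset (Finset V)}
    (h : ∀ i, DcM p q s blk (f i) M) : DcM p q s blk (.mod k f) M := by
  set S : Finset (Fin k) := Finset.univ.filter (fun i => FoM p q s blk (f i) true M) with hS
  have h1 : ∀ i ∈ S, FoM p q s blk (f i) true M := by
    intro i hi
    rw [hS, Finset.mem_filter] at hi
    exact hi.2
  have h2 : ∀ i, i ∉ S → FoM p q s blk (f i) false M := by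
    intro i hi
    rcases h i with h3 | h3
    · exact absurd (by rw [hS, Finset.mem_filter]; exact ⟨Finset.mem_univ _, h3⟩) hi
    · exact h3
  by_cases hd : p ∣ S.card
  · left
    exact ⟨S, h1, h2, by simp [hd]⟩
  · right
    exact ⟨S, h1, h2, by simp [hd]⟩

/-- `MOD_p` of literals whose live blocks have a small cover has a shallow tree. -/
theorem decM_mod (hq : 1 ≤ q) {k : ℕ} {f : Fin k → Fm} (hf : ∀ i, (f i).IsLit)
    {M : Finset (Finset V)} (hM : IsPM q M) (C : Finset V) (hC : C.card ≤ s)
    (hcov : ∀ i B, blk (litIdx (f i)) = some B → Disjoint (supp M) B → ¬ Disjoint C B) :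
    Dec q (DcM p q s blk (.mod k f)) s M := by
  refine dec_cover hq C hC hM (fun M' h1 _ h3 => dcM_mod (fun i => dcM_lit (hf i) ?_))
  intro B hB hd
  have hd1 : Disjoint (supp M) B := hd.mono_left (supp_mono h1)
  exact hcov i B hB hd1 (hd.mono_left h3)

end Pool.Agent.Helper21.Loc
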