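import Pool.Agent.Helper21.Loc.Force
import Pool.Agent.Helper21.Mix.TreeFn
import Pool.Agent.Helper21.Mix.CountCNF

/-!
Exact indicators of literals.
-/

namespace Pool.Agent.Helper21.Loc

open scoped BigOperators Classical
open Pool.Agent.Helper21.AC0p Pool.Agent.Helper21.Mix

set_option linter.unusedSectionVars false

variable {V : Type} [Fintype V]

/-- On formulas without `MOD_p` the two forcing relations agree. -/
theorem foM_iff {p q s : ℕ} {blk : ℕ → Option (Finset V)} {A : Fm} (hA : A.ModFree) :
    ∀ (b : Bool) (M : Finset (Finset V)), FoM p q s blk A b M ↔ Fo q s blk A b M := by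
  induction A with
  | var i => intro b M; cases b <;> exact Iff.rfl
  | neg A ih => intro b M; simp only [FoM, Fo]; exact ih hA _ _
  | or k f ih =>
    intro b M
    cases b with
    | true => simp only [FoM, Fo]; exact exists_congr (fun i => ih i (hA i) _ _)
    | false =>
      simp only [FoM, Fo]
      refine forall_congr' fun M' => imp_congr_right fun _ => imp_congr_right fun _ =>
        imp_congr_right fun _ => forall_congr' fun i => not_congr (ih i (hA i) _ _)
  | mod k f _ => exact hA.elim

theorem clauseFm_modFree (C : Clause) : (clauseFm C).ModFree := by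
  intro i
  have hi := List.get_mem (C.map litFm) i
  rw [List.mem_map] at hi
  obtain ⟨⟨j, c⟩, _, hl⟩ := hi
  rw [← hl]
  cases c <;> exact trivial

theorem not_foM_clause {p q N s : ℕ} (hq : 1 ≤ q) {C : Clause} (hC : C ∈ countCNF q N)
    {M : Finset (Finset (Fin N))} (hM : IsPM q M) (hc : q * (M.card + 1) + q * s ≤ N) :
    ¬ FoM p q s (blkOf q N) (clauseFm C) false M := by
  rw [foM_iff (clauseFm_modFree C)]
  exact not_fo_clause hq hC hM hc

theorem foM_orL_true {p q s : ℕ} {blk : ℕ → Option (Finset V)} {L : List Fm}
    {M : Finset (Finset V)} :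
    FoM p q s blk (Fm.orL L) true M ↔ ∃ z ∈ L, FoM p q s blk z true M := by
  have := exists_get_iff L (fun z => FoM p q s blk z true M)
  simp only [Fm.orL, FoM]
  exact this

/-- The truth of a literal has low degree. -/
theorem lit_deg {X K : Type} [Field K] {𝔉 : Filt X K} {p q s : ℕ} (hs : 1 ≤ s) (hqs : q ≤ s)
    {blk : ℕ → Option (Finset V)} (hblk : ∀ i B, blk i = some B → B.card = q)
    {ρ : Finset (Finset V)} {M : X → Finset (Finset V)} (hM : ∀ x, IsPM q (M x))
    (hMB : ∀ B, ind K (fun x => decide (B ∈ M x)) ∈ 𝔉.LD 5) {A : Fm} (hA : A.IsLit)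
    {P : X → Prop} (hP : ∀ x, P x ↔ ∃ t, t ⊆ M x ∧ t.card ≤ s ∧ FoM p q s blk A true (ρ ∪ t)) :
    ind K (fun x => decide (P x)) ∈ 𝔉.LD (5 * (s + 1)) := by
  have htrue : (∀ x, P x) → ind K (fun x => decide (P x)) ∈ 𝔉.LD (5 * (s + 1)) := by
    intro hP
    have : ind K (fun x => decide (P x)) = 1 := by
      funext x; simp [ind, hP x]
    rw [this]; exact 𝔉.one_mem' _
  have hfalse : (∀ x, ¬ P x) → ind K (fun x => decide (P x)) ∈ 𝔉.LD (5 * (s + 1)) := by
    intro hP
    have : ind K (fun x => decide (P x)) = 0 := by
      funext x; simp [ind, hP x]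
    rw [this]; exact Submodule.zero_mem _
  obtain ⟨i, rfl | rfl⟩ := hA
  · rcases hb : blk i with _ | B
    · refine hfalse ?_
      intro x hx
      obtain ⟨t, _, _, B, hB, _⟩ := (hP x).1 hx
      rw [hb] at hB
      exact absurd hB (by simp)
    · by_cases hBρ : B ∈ ρ
      · refine htrue (fun x => (hP x).2 ⟨∅, by simp, by simp, B, hb, ?_⟩)
        exact Finset.mem_union_left _ hBρ
      · have e : ∀ x, P x ↔ B ∈ M x := by
          intro x
          rw [hP]
          constructor
          · rintro ⟨t, ht, _, B', hB', hB't⟩
            rw [hb, Option.some_inj] at hB'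
            subst hB'
            rcases Finset.mem_union.1 hB't with h | h
            · exact absurd h hBρ
            · exact ht h
          · intro h
            exact ⟨{B}, by simpa using h, by simpa using hs, B, hb, by simp⟩
        have e2 : ind K (fun x => decide (P x)) = ind K (fun x => decide (B ∈ M x)) := by
          funext x
          simp only [ind, decide_eq_true_eq, e x]
        rw [e2]
        exact 𝔉.mono (by omega) (hMB B)
  · rcases hb : blk i with _ | B
    · refine htrue (fun x => (hP x).2 ⟨∅, by simp, by simp, ?_⟩)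
      intro B hB
      rw [hb] at hB
      exact absurd hB (by simp)
    · by_cases hBρ : ∃ B' ∈ ρ, B' ≠ B ∧ ¬ Disjoint B' B
      · refine htrue (fun x => (hP x).2 ⟨∅, by simp, by simp, ?_⟩)
        intro B₁ hB₁
        rw [hb, Option.some_inj] at hB₁
        subst hB₁
        obtain ⟨B', h1, h2⟩ := hBρ
        exact ⟨B', Finset.mem_union_left _ h1, h2⟩
      · have key : ∀ x, P x ↔ (B ∉ M x ∧ ∃ a ∈ B, a ∈ supp (M x)) := by
          intro x
          rw [hP]
          constructor
          · rintro ⟨t, ht, _, h⟩
            obtain ⟨B', h1, h2, h3⟩ := h B hb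
            rcases Finset.mem_union.1 h1 with h4 | h4
            · exact absurd ⟨B', h4, h2, h3⟩ hBρ
            · refine ⟨fun hBM => h3 ((hM x).2 B' (ht h4) B hBM h2), ?_⟩
              rw [Finset.not_disjoint_iff] at h3
              obtain ⟨a, ha, ha'⟩ := h3
              exact ⟨a, ha', mem_supp.2 ⟨B', ht h4, ha⟩⟩
          · rintro ⟨hBM, a, haB, ha⟩
            obtain ⟨B', hB', haB'⟩ := mem_supp.1 ha
            refine ⟨{B'}, by simpa using hB', by simpa using hs, ?_⟩
            intro B₁ hB₁
            rw [hb, Option.some_inj] at hB₁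
            subst hB₁
            refine ⟨B', by simp, fun h => hBM (h ▸ hB'), ?_⟩
            exact fun hd => Finset.disjoint_left.1 hd haB' haB
        have e : ind K (fun x => decide (P x)) =
            (1 - ind K (fun x => decide (B ∈ M x))) *
              (1 - ∏ a ∈ B, ind K (fun x => decide (a ∉ supp (M x)))) := by
          funext x
          simp only [Pi.sub_apply, Pi.mul_apply, Pi.one_apply, Finset.prod_apply]
          by_cases hBM : B ∈ M x
          · have : ¬ P x := fun h => ((key x).1 h).1 hBM
            simp [ind, this, hBM]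
          · by_cases hex : ∃ a ∈ B, a ∈ supp (M x)
            · have : P x := (key x).2 ⟨hBM, hex⟩
              obtain ⟨a, haB, ha⟩ := hex
              rw [Finset.prod_eq_zero haB]
              · simp [ind, this, hBM]
              · simp [ind, ha]
            · have : ¬ P x := fun h => hex ((key x).1 h).2
              rw [Finset.prod_eq_one]
              · simp [ind, this]
              · intro a ha
                have : a ∉ supp (M x) := fun h => hex ⟨a, ha, h⟩
                simp [ind, this]
        rw [e]
        have h1 : (1 : X → K) - ind K (fun x => decide (B ∈ M x)) ∈ 𝔉.LD 5 :=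
          Submodule.sub_mem _ (𝔉.one_mem' _) (hMB B)
        have h2 : (1 : X → K) - ∏ a ∈ B, ind K (fun x => decide (a ∉ supp (M x))) ∈
            𝔉.LD (B.card * 5) :=
          Submodule.sub_mem _ (𝔉.one_mem' _)
            (𝔉.prod_mem _ _ _ (fun a _ => uncovered_mem hM hMB a))
        refine 𝔉.mono ?_ (𝔉.mul_mem h1 h2)
        rw [hblk i B hb]
        omega

end Pool.Agent.Helper21.Loc
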