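import Pool.Agent.Helper21.Loc.Rule
import Pool.Agent.Helper21.Loc.Lit
import Pool.Agent.Helper21.Mix.OvMain

/-!
The set of formulas to be handled by decision trees.
-/

namespace Pool.Agent.Helper21.Loc

open scoped BigOperators Classical
open Pool.Agent.Helper21.AC0p Pool.Agent.Helper21.Mix

set_option linter.unusedSectionVars false

/-- The members of `G` that are subformulas of a formula. -/
noncomputable def gsub (G : Finset Fm) (A : Fm) : Finset Fm := G.filter (fun g => Fm.IsSub g A)

theorem mem_gsub {G : Finset Fm} {A g : Fm} : g ∈ gsub G A ↔ g ∈ G ∧ Fm.IsSub g A := by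
  simp [gsub]

/-- Formulas to be handled by decision trees. -/
noncomputable def GamL (m : ℕ) (π : List Fm) (G : Finset Fm) : Finset Fm :=
  ({Fm.orL [], Fm.neg (Fm.orL [])} ∪
    ((finite_subs π).toFinset.filter (fun A => A.OverM m G)).biUnion
      (fun B => (gsub G B).powerset.image (fun H => sbL G H B))) ∪
    ((finite_subs π).toFinset.filter IsOr).biUnion
      (fun B => (gsub G B).powerset.image (fun H => ovPartL m G H (args B)))

theorem mem_GamL {m : ℕ} {π : List Fm} {G : Finset Fm} {A : Fm} : A ∈ GamL m π G ↔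
    A = Fm.orL [] ∨ A = Fm.neg (Fm.orL []) ∨
    (∃ B ∈ subs π, B.OverM m G ∧ ∃ H ⊆ gsub G B, sbL G H B = A) ∨
    ∃ L, Fm.orL L ∈ subs π ∧ ∃ H ⊆ gsub G (Fm.orL L), ovPartL m G H L = A := by
  unfold GamL
  rw [Finset.mem_union, Finset.mem_union, Finset.mem_biUnion, Finset.mem_biUnion]
  constructor
  · rintro ((h | ⟨B, hB, h⟩) | ⟨B, hB, h⟩)
    · rw [Finset.mem_insert, Finset.mem_singleton] at h
      rcases h with h | h
      · exact Or.inl h
      · exact Or.inr (Or.inl h)
    · rw [Finset.mem_image] at h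
      obtain ⟨H, hH, rfl⟩ := h
      rw [Finset.mem_filter, Set.Finite.mem_toFinset] at hB
      exact Or.inr (Or.inr (Or.inl ⟨B, hB.1, hB.2, H, Finset.mem_powerset.1 hH, rfl⟩))
    · rw [Finset.mem_image] at h
      obtain ⟨H, hH, rfl⟩ := h
      rw [Finset.mem_filter, Set.Finite.mem_toFinset] at hB
      obtain ⟨hB, k, f, rfl⟩ := hB
      refine Or.inr (Or.inr (Or.inr ⟨List.ofFn f, ?_, H, ?_, rfl⟩))
      · rw [orL_ofFn]; exact hB
      · rw [orL_ofFn]; exact Finset.mem_powerset.1 hH
  · rintro (h | h | ⟨B, h1, h2, H, hH, rfl⟩ | ⟨L, h1, H, hH, rfl⟩)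
    · exact Or.inl (Or.inl (by rw [h]; simp))
    · exact Or.inl (Or.inl (by rw [h]; simp))
    · refine Or.inl (Or.inr ⟨B, ?_, ?_⟩)
      · rw [Finset.mem_filter, Set.Finite.mem_toFinset]
        exact ⟨h1, h2⟩
      · exact Finset.mem_image.2 ⟨H, Finset.mem_powerset.2 hH, rfl⟩
    · refine Or.inr ⟨Fm.orL L, ?_, ?_⟩
      · rw [Finset.mem_filter, Set.Finite.mem_toFinset]
        exact ⟨h1, L.length, L.get, rfl⟩
      · exact Finset.mem_image.2 ⟨H, Finset.mem_powerset.2 hH, by rw [args_orL]⟩

theorem sbL_gsub (G H : Finset Fm) (B : Fm) : sbL G H B = sbL G (H ∩ gsub G B) B := by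
  refine sbL_congr B ?_
  intro g hg hs
  rw [Finset.mem_inter, mem_gsub]
  exact ⟨fun h => ⟨h, hg, hs⟩, fun h => h.1⟩

theorem sbL_mem_GamL {m : ℕ} {π : List Fm} {G : Finset Fm} {B : Fm} (hB : B ∈ subs π)
    (hO : B.OverM m G) (H : Finset Fm) : sbL G H B ∈ GamL m π G :=
  mem_GamL.2 (Or.inr (Or.inr (Or.inl ⟨B, hB, hO, H ∩ gsub G B, Finset.inter_subset_right,
    (sbL_gsub G H B).symm⟩)))

theorem ovPartL_mem_GamL {m : ℕ} {π : List Fm} {G : Finset Fm} {L : List Fm}
    (hL : Fm.orL L ∈ subs π) (H : Finset Fm) : ovPartL m G H L ∈ GamL m π G := by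
  refine mem_GamL.2 (Or.inr (Or.inr (Or.inr ⟨L, hL, H ∩ gsub G (Fm.orL L),
    Finset.inter_subset_right, ?_⟩)))
  refine ovPartL_congr L ?_
  intro z hz g hg hs
  rw [Finset.mem_inter, mem_gsub]
  refine ⟨fun h => h.1, fun h => ⟨h, hg, ?_⟩⟩
  obtain ⟨i, rfl⟩ := List.get_of_mem hz
  exact Fm.IsSub.or i hs

theorem cst_LM (m : ℕ) (c : Prop) : LM m (cst c) := by
  unfold cst
  by_cases h : c
  · rw [if_pos h]; intro i; exact i.elim0
  · rw [if_neg h]; intro i; exact i.elim0

theorem sbL_LM {m : ℕ} {G H : Finset Fm} {A : Fm} (hA : A.OverM m G) : LM m (sbL G H A) := by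
  induction A with
  | var i => trivial
  | neg A ih =>
    simp only [sbL]
    by_cases hg : Fm.neg A ∈ G
    · rw [if_pos hg]; exact cst_LM _ _
    · rw [if_neg hg]; exact ih (hA.resolve_left hg)
  | or k f ih =>
    simp only [sbL]
    by_cases hg : Fm.or k f ∈ G
    · rw [if_pos hg]; exact cst_LM _ _
    · rw [if_neg hg]; intro i; exact ih i (hA.resolve_left hg i)
  | mod k f _ =>
    simp only [sbL]
    by_cases hg : Fm.mod k f ∈ G
    · rw [if_pos hg]; exact cst_LM _ _
    · rw [if_neg hg]; exact hA.resolve_left hg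

theorem closed_GamL (m : ℕ) (π : List Fm) (G : Finset Fm) : ClosedM m (GamL m π G) := by
  refine ⟨?_, ?_, ?_⟩
  · intro A hA
    rcases mem_GamL.1 hA with rfl | rfl | ⟨B, _, h2, H, _, rfl⟩ | ⟨L, _, H, _, rfl⟩
    · intro i; exact i.elim0
    · intro i; exact i.elim0
    · exact sbL_LM h2
    · intro i
      have hi := List.get_mem ((L.filter (fun A => decide (A.OverM m G))).map (sbL G H)) i
      rw [List.mem_map] at hi
      obtain ⟨z, hz, hz2⟩ := hi
      rw [← hz2]
      rw [List.mem_filter] at hz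
      exact sbL_LM (by simpa using hz.2)
  · intro B hB
    rcases mem_GamL.1 hB with h | h | ⟨A, h1, h2, H, hH, h3⟩ | ⟨L, _, H, _, h⟩
    · exact Fm.noConfusion h
    · exact mem_GamL.2 (Or.inl (Fm.neg.inj h))
    · cases A with
      | var i => exact Fm.noConfusion h3
      | neg A =>
        simp only [sbL] at h3
        by_cases hg : Fm.neg A ∈ G
        · rw [if_pos hg] at h3
          exact mem_GamL.2 (Or.inl (cst_eq_neg h3))
        · rw [if_neg hg] at h3
          rw [← Fm.neg.inj h3]
          exact sbL_mem_GamL (subs_trans h1 (Fm.IsSub.neg Fm.IsSub.refl)) (h2.resolve_left hg) H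
      | or k f =>
        simp only [sbL] at h3
        by_cases hg : Fm.or k f ∈ G
        · rw [if_pos hg] at h3
          exact mem_GamL.2 (Or.inl (cst_eq_neg h3))
        · rw [if_neg hg] at h3
          exact Fm.noConfusion h3
      | mod k f =>
        simp only [sbL] at h3
        by_cases hg : Fm.mod k f ∈ G
        · rw [if_pos hg] at h3
          exact mem_GamL.2 (Or.inl (cst_eq_neg h3))
        · rw [if_neg hg] at h3
          exact Fm.noConfusion h3
    · exact Fm.noConfusion h
  · intro k f hf i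
    rcases mem_GamL.1 hf with h | h | ⟨A, h1, h2, H, hH, h3⟩ | ⟨L, hL, H, hH, h⟩
    · exact (or_eq_nil h i).elim
    · exact Fm.noConfusion h
    · cases A with
      | var i => exact Fm.noConfusion h3
      | neg A =>
        simp only [sbL] at h3
        by_cases hg : Fm.neg A ∈ G
        · rw [if_pos hg] at h3
          exact (or_eq_nil (cst_eq_or h3) i).elim
        · rw [if_neg hg] at h3
          exact Fm.noConfusion h3
      | or k' f' =>
        simp only [sbL] at h3
        by_cases hg : Fm.or k' f' ∈ G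
        · rw [if_pos hg] at h3
          exact (or_eq_nil (cst_eq_or h3) i).elim
        · rw [if_neg hg] at h3
          have h4 := congrArg args h3
          change List.ofFn (fun i => sbL G H (f' i)) = List.ofFn f at h4
          have h5 : f i ∈ List.ofFn f := List.mem_ofFn.2 ⟨i, rfl⟩
          rw [← h4, List.mem_ofFn] at h5
          obtain ⟨j, hj⟩ := h5
          rw [← hj]
          exact sbL_mem_GamL (subs_trans h1 (Fm.IsSub.or j Fm.IsSub.refl))
            (h2.resolve_left hg j) H
      | mod k' f' =>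
        simp only [sbL] at h3
        by_cases hg : Fm.mod k' f' ∈ G
        · rw [if_pos hg] at h3
          exact (or_eq_nil (cst_eq_or h3) i).elim
        · rw [if_neg hg] at h3
          exact Fm.noConfusion h3
    · have h4 := congrArg args h
      rw [ovPartL, args_orL] at h4
      have h5 : f i ∈ List.ofFn f := List.mem_ofFn.2 ⟨i, rfl⟩
      change _ = List.ofFn f at h4
      rw [← h4, List.mem_map] at h5
      obtain ⟨z, hz, hz2⟩ := h5
      rw [List.mem_filter] at hz
      rw [← hz2]
      exact sbL_mem_GamL (subs_trans hL (isSub_orL hz.1)) (by simpa using hz.2) H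

theorem cst_ne_mod {c : Prop} {k : ℕ} {f : Fin k → Fm} (h : cst c = Fm.mod k f) : False := by
  unfold cst at h
  by_cases hc : c
  · rw [if_pos hc] at h
    exact Fm.noConfusion h
  · rw [if_neg hc] at h
    exact Fm.noConfusion h

/-- The formulas `MOD_p` of literals in the set occur in the refutation. -/
theorem mod_GamL {m : ℕ} {π : List Fm} {G : Finset Fm} {A : Fm} (hA : A ∈ GamL m π G)
    (hm : A.LitMod m) : A ∈ subs π := by
  obtain ⟨k, f, rfl, _, _⟩ := hm
  rcases mem_GamL.1 hA with h | h | ⟨B, h1, h2, H, hH, h3⟩ | ⟨L, hL, H, hH, h⟩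
  · exact Fm.noConfusion h
  · exact Fm.noConfusion h
  · cases B with
    | var i => exact Fm.noConfusion h3
    | neg B =>
      simp only [sbL] at h3
      by_cases hg : Fm.neg B ∈ G
      · rw [if_pos hg] at h3
        exact (cst_ne_mod h3).elim
      · rw [if_neg hg] at h3
        exact Fm.noConfusion h3
    | or k' f' =>
      simp only [sbL] at h3
      by_cases hg : Fm.or k' f' ∈ G
      · rw [if_pos hg] at h3
        exact (cst_ne_mod h3).elim
      · rw [if_neg hg] at h3
        exact Fm.noConfusion h3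
    | mod k' f' =>
      simp only [sbL] at h3
      by_cases hg : Fm.mod k' f' ∈ G
      · rw [if_pos hg] at h3
        exact (cst_ne_mod h3).elim
      · rw [if_neg hg] at h3
        rw [← h3]; exact h1
  · exact Fm.noConfusion h

/-- Number of disjunctions. -/
theorem card_GamL_or {m g0 : ℕ} {π : List Fm} {G : Finset Fm} (hnil : Fm.orL [] ∈ subs π)
    (hg0 : ∀ A ∈ subs π, (gsub G A).card ≤ g0) :
    ((GamL m π G).filter (fun A => ∃ (k : ℕ) (f : Fin k → Fm), A = .or k f)).card ≤
      2 ^ g0 * numOr π := by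
  set 𝒪 : Finset Fm := ((finite_subs π).toFinset.filter IsOr).biUnion
      (fun B => (gsub G B).powerset.image (fun H => ovPartL m G H (args B))) with h𝒪
  have key : ∀ L, Fm.orL L ∈ subs π → ∀ H ⊆ gsub G (Fm.orL L), ovPartL m G H L ∈ 𝒪 := by
    intro L hL H hH
    rw [h𝒪, Finset.mem_biUnion]
    refine ⟨Fm.orL L, ?_, Finset.mem_image.2 ⟨H, Finset.mem_powerset.2 hH, by rw [args_orL]⟩⟩
    rw [Finset.mem_filter, Set.Finite.mem_toFinset]
    exact ⟨hL, L.length, L.get, rfl⟩
  have key0 : Fm.orL [] ∈ 𝒪 := key [] hnil ∅ (by simp)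
  have h1 : (GamL m π G).filter (fun A => ∃ (k : ℕ) (f : Fin k → Fm), A = .or k f) ⊆ 𝒪 := by
    intro B hB
    rw [Finset.mem_filter] at hB
    obtain ⟨hB, k, f, rfl⟩ := hB
    rcases mem_GamL.1 hB with h | h | ⟨A, h1, h2, H, hH, h3⟩ | ⟨L, hL, H, hH, h⟩
    · rw [h]; exact key0
    · exact Fm.noConfusion h
    · cases A with
      | var i => exact Fm.noConfusion h3
      | neg A =>
        simp only [sbL] at h3
        by_cases hg : Fm.neg A ∈ G
        · rw [if_pos hg] at h3
          rw [cst_eq_or h3]; exact key0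
        · rw [if_neg hg] at h3
          exact Fm.noConfusion h3
      | or k' f' =>
        by_cases hg : Fm.or k' f' ∈ G
        · simp only [sbL] at h3
          rw [if_pos hg] at h3
          rw [cst_eq_or h3]; exact key0
        · rw [← h3]
          rw [← orL_ofFn] at hg h1 h2 hH ⊢
          rw [← ovPartL_eq hg h2]
          exact key _ h1 H hH
      | mod k' f' =>
        simp only [sbL] at h3
        by_cases hg : Fm.mod k' f' ∈ G
        · rw [if_pos hg] at h3
          rw [cst_eq_or h3]; exact key0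
        · rw [if_neg hg] at h3
          exact Fm.noConfusion h3
    · rw [← h]; exact key L hL H hH
  refine (Finset.card_le_card h1).trans (Finset.card_biUnion_le.trans ?_)
  have h2 : ((finite_subs π).toFinset.filter IsOr).card = numOr π := by
    unfold numOr
    have h2 : {B : Fm | (∃ (k : ℕ) (f : Fin k → Fm), B = Fm.or k f) ∧ ∃ A ∈ π, Fm.IsSub B A} =
        (((finite_subs π).toFinset.filter IsOr : Finset Fm) : Set Fm) := by
      ext B
      rw [Set.mem_ofPred_eq, Finset.mem_coe, Finset.mem_filter, Set.Finite.mem_toFinset]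
      exact and_comm
    rw [h2, Set.ncard_coe_finset]
  calc ∑ B ∈ (finite_subs π).toFinset.filter IsOr, ((gsub G B).powerset.image
        (fun H => ovPartL m G H (args B))).card
      ≤ ∑ _B ∈ (finite_subs π).toFinset.filter IsOr, 2 ^ g0 := by
        refine Finset.sum_le_sum (fun B hB => ?_)
        rw [Finset.mem_filter, Set.Finite.mem_toFinset] at hB
        refine Finset.card_image_le.trans ?_
        rw [Finset.card_powerset]
        exact Nat.pow_le_pow_right (by norm_num) (hg0 B hB.1)
    _ = 2 ^ g0 * numOr π := by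
        rw [Finset.sum_const, smul_eq_mul, h2, mul_comm]

theorem ordep_sbL {G H : Finset Fm} (A : Fm) : ordep (sbL G H A) ≤ ordep A + 1 := by
  induction A with
  | var i => simp [sbL, ordep]
  | neg A ih =>
    simp only [sbL]
    by_cases hg : Fm.neg A ∈ G
    · rw [if_pos hg]; exact (ordep_cst _).trans (by omega)
    · rw [if_neg hg]; exact ih
  | or k f ih =>
    simp only [sbL]
    by_cases hg : Fm.or k f ∈ G
    · rw [if_pos hg]; exact (ordep_cst _).trans (by omega)
    · rw [if_neg hg]
      simp only [ordep]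
      refine Nat.succ_le_succ (Finset.sup_le (fun i _ => ?_))
      refine (ih i).trans (Nat.succ_le_succ ?_)
      exact Finset.le_sup (f := fun i => ordep (f i)) (Finset.mem_univ i)
  | mod k f _ =>
    simp only [sbL]
    by_cases hg : Fm.mod k f ∈ G
    · rw [if_pos hg]; exact (ordep_cst _).trans (by omega)
    · rw [if_neg hg]; omega

theorem ordep_GamL {m : ℕ} {π : List Fm} {G : Finset Fm} {d : ℕ}
    (hd : ∀ A ∈ π, A.depth ≤ d) {A : Fm} (hA : A ∈ GamL m π G) : ordep A ≤ d + 1 := by
  rcases mem_GamL.1 hA with rfl | rfl | ⟨B, h1, _, H, _, rfl⟩ | ⟨L, hL, H, _, rfl⟩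
  · exact (ordep_orL_le (by simp) : ordep (Fm.orL []) ≤ 0 + 1).trans (by omega)
  · exact (ordep_orL_le (by simp) : ordep (Fm.orL []) ≤ 0 + 1).trans (by omega)
  · exact (ordep_sbL B).trans (Nat.succ_le_succ ((ordep_le_depth B).trans (depth_subs hd h1)))
  · have h1 := (ordep_le_depth _).trans (depth_subs hd hL)
    have h2 : ordep (Fm.orL L) = (Finset.univ.sup fun i => ordep (L.get i)) + 1 := rfl
    refine (ordep_orL_le (m := (Finset.univ.sup fun i => ordep (L.get i)) + 1) ?_).trans
      (by omega)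
    intro z hz
    rw [List.mem_map] at hz
    obtain ⟨z, hz, rfl⟩ := hz
    rw [List.mem_filter] at hz
    obtain ⟨i, hi⟩ := List.get_of_mem hz.1
    refine (ordep_sbL z).trans (Nat.succ_le_succ ?_)
    rw [← hi]
    exact Finset.le_sup (f := fun i => ordep (L.get i)) (Finset.mem_univ i)

theorem ovPartL_clause {m : ℕ} {G : Finset Fm} (hgl : ∀ i, Fm.neg (.var i) ∉ G)
    (H : Finset Fm) (C : Clause) : ovPartL m G H (C.map litFm) = clauseFm C := by
  unfold ovPartL clauseFm
  rw [List.filter_eq_self.2, List.map_map]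
  · congr 1
    apply List.map_congr_left
    rintro ⟨j, c⟩ _
    cases c
    · change sbL G H (Fm.neg (.var j)) = _
      rw [sbL_neg (hgl j)]
      rfl
    · rfl
  · intro z hz
    rw [List.mem_map] at hz
    obtain ⟨⟨j, c⟩, _, rfl⟩ := hz
    rw [decide_eq_true_eq]
    cases c
    · exact Or.inr trivial
    · exact trivial

/-- Number of formulas `MOD_p` of few literals. -/
theorem card_litMod_le {m : ℕ} (π : List Fm) :
    ((finite_subs π).toFinset.filter (fun A => A.LitMod m)).card ≤ numOM m π ∧
    numOr π ≤ numOM m π := by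
  have hfin : {B : Fm | ((∃ (k : ℕ) (f : Fin k → Fm), B = Fm.or k f) ∨ B.LitMod m) ∧
    ∃ A ∈ π, Fm.IsSub B A}.Finite := (finite_subs π).subset (fun B hB => hB.2)
  constructor
  · rw [← Set.ncard_coe_finset]
    refine Set.ncard_le_ncard ?_ hfin
    intro B hB
    rw [Finset.mem_coe, Finset.mem_filter, Set.Finite.mem_toFinset] at hB
    exact ⟨Or.inr hB.2, hB.1⟩
  · refine Set.ncard_le_ncard ?_ hfin
    intro B hB
    exact ⟨Or.inl hB.1, hB.2⟩

end Pool.Agent.Helper21.Loc
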