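import Pool.Agent.Helper21.Loc.Gam

/-!
The core of the lower bound for refutations with few disjuncts that are not over a set of
formulas which has few members in each line.
-/

namespace Pool.Agent.Helper21.Loc

open scoped BigOperators Classical
open Pool.Agent.Helper21.AC0p Pool.Agent.Helper21.Mix

set_option linter.unusedSectionVars false

/-- The truth of a formula at a point. -/
def TM {V X : Type} [Fintype V] (p q s : ℕ) (blk : ℕ → Option (Finset V))
    (ρ : Finset (Finset V)) (M : X → Finset (Finset V)) (c : Bool) (A : Fm) (x : X) : Prop :=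
  ∃ t, t ⊆ M x ∧ t.card ≤ s ∧ FoM p q s blk A c (ρ ∪ t)

theorem loc_core {p : ℕ} [hp : Fact p.Prime] {q c : ℕ} (hq : 1 ≤ q)
    (hard : ∀ m w : ℕ, m % q = 1 → c ≤ w → c * w ≤ m →
      ∀ (V : Type) (_ : Fintype V) (U : Finset V), U.card = m →
      ∃ (X K : Type) (_ : Field K) (_ : CharP K p) (𝔉 : Filt X K)
        (M : X → Finset (Finset V)),
        (∀ x, IsPM q (M x) ∧ supp (M x) ⊆ U) ∧
        (∀ B, ind K (fun x => decide (B ∈ M x)) ∈ 𝔉.LD 5) ∧
        ¬ Der 𝔉 {g | ∃ a ∈ U, g = ind K (fun x => decide (a ∉ supp (M x)))} w 1)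
    {V : Type} [Fintype V] {blk : ℕ → Option (Finset V)}
    (hblk : ∀ i B, blk i = some B → B.card = q)
    {N s j0 j1 m g0 w t d κ Dm : ℕ} (hcard : Fintype.card V = N)
    {Fs : List Clause} (hFs : ∀ C ∈ Fs, ∀ M : Finset (Finset V), IsPM q M →
      q * (M.card + 1) + q * s ≤ N → ¬ FoM p q s blk (clauseFm C) false M)
    (hN : N % q = 1) (hs : 1 ≤ s) (hqs : q ≤ s) (k a : ℕ → ℕ)
    (hkmono : ∀ i < d + 1, k i ≤ k (i + 1))
    (hkV : ∀ i ≤ d + 1, q * (k i + s + 1) ≤ N)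
    (ha : ∀ i < d + 1, N - q * k (i + 1) ≤ a (i + 1)) (ha1 : ∀ i, 1 ≤ a i)
    (hbig : ∀ i < d + 1, 4 * (a (i + 1) ^ q * (2 * (s * (a (i + 1) ^ q + 1) ^ q))) ≤
      k (i + 1) + 1 - k i)
    (hj0 : q * j0 ≤ s) (hj1 : 1 ≤ j1) (hj1s : q * j1 ≤ s)
    (hroom : q * (k (d + 1) + 2 * s + 1) + q * s * (d + 2) ≤ N)
    (hcw : c ≤ w) (hcm : c * w ≤ N - q * k (d + 1)) (hw5 : 5 * (s + 1) ≤ w)
    {G : Finset Fm} (hκp : p ≤ κ) (hκt : t + g0 + 1 ≤ κ)
    (hDm : g0 * (κ ^ d * (5 * (s + 1))) + κ ^ d * (5 * (s + 1)) ≤ Dm)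
    {R : List Rule} (hR : ∀ r ∈ R, r.Sound p)
    (hw : ∀ r ∈ R, ruleCostL r * Dm ≤ w) (hw2 : 2 * Dm ≤ w)
    {π : List Fm} (hπ : Refutation R Fs π) (hd : ∀ A ∈ π, A.depth ≤ d)
    (hgs : ∀ g ∈ G, g ∈ subs π) (hgv : ∀ i, Fm.var i ∉ G) (hgl : ∀ i, Fm.neg (.var i) ∉ G)
    (hg0 : ∀ A ∈ π, (gsub G A).card ≤ g0)
    (hfew : ∀ (k : ℕ) (f : Fin k → Fm), Fm.or k f ∈ subs π →
      ((Finset.univ.image f).filter (fun z => ¬ z.OverM m G)).card ≤ t)
    (hnum : 2 ^ g0 * numOM m π < 2 ^ j0)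
    (hnum1 : numOM m π * m ^ j1 * (N - q * k 0) ^ (q * j1) < N ^ (q * j1)) : False := by
  have hnil : Fm.orL [] ∈ subs π := ⟨_, hπ.2, Fm.IsSub.refl⟩
  have hg0' : ∀ A ∈ subs π, (gsub G A).card ≤ g0 := by
    rintro A ⟨B, hB, hAB⟩
    refine le_trans (Finset.card_le_card ?_) (hg0 B hB)
    intro g hg
    rw [mem_gsub] at hg ⊢
    exact ⟨hg.1, isSub_trans hg.2 hAB⟩
  obtain ⟨ρ₀, hρ₀, hρ₀k, hbase⟩ := exists_first (p := p) (s := s) (blk := blk) hq hblk
    ((finite_subs π).toFinset.filter (fun A => A.LitMod m)) (m := m) (j := j1) (k := k 0)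
    (fun A hA => (Finset.mem_filter.1 hA).2) hj1 hj1s
    (by
      rw [hcard]
      exact (Nat.mul_le_mul_left _ (by omega)).trans (hkV 0 (by omega)))
    (by
      rw [hcard]
      refine lt_of_le_of_lt ?_ hnum1
      exact Nat.mul_le_mul_right _ (Nat.mul_le_mul_right _ (card_litMod_le π).1))
  obtain ⟨ρ, hρ, _, hρk, hdec⟩ := levelsM (p := p) (blk := blk) hq hs hblk
    (closed_GamL m π G) (d := d + 1) (j0 := j0) k a hρ₀ hρ₀k
    (fun A hA hm => hbase A (by
      rw [Finset.mem_filter, Set.Finite.mem_toFinset]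
      exact ⟨mod_GamL hA hm, hm⟩)) hkmono (by rw [hcard]; exact hkV)
    (by rw [hcard]; exact ha) ha1 hbig hj0
    (((card_GamL_or hnil hg0').trans (Nat.mul_le_mul_left _ (card_litMod_le π).2)).trans_lt hnum)
    (d + 1) le_rfl
  set U : Finset V := Finset.univ \ supp ρ with hU
  have hUcard : U.card = N - q * k (d + 1) := by
    rw [hU, Finset.card_sdiff_of_subset (Finset.subset_univ _), Finset.card_univ, hcard,
      hρ.card_supp, hρk]
  have hkd : q * k (d + 1) ≤ N := by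
    have := hkV (d + 1) le_rfl
    calc q * k (d + 1) ≤ q * (k (d + 1) + s + 1) := Nat.mul_le_mul_left _ (by omega)
      _ ≤ N := this
  have hmod : (N - q * k (d + 1)) % q = 1 := by
    rw [Nat.sub_mul_mod hkd]; exact hN
  obtain ⟨X, K, _, _, 𝔉, M, hM, hMB, hnot⟩ := hard _ w hmod hcw hcm V inferInstance U hUcard
  apply hnot
  set Ax : Set (X → K) := {g | ∃ a ∈ U, g = ind K (fun x => decide (a ∉ supp (M x)))} with hAx
  have hdisj : ∀ x, Disjoint (supp (M x)) (supp ρ) := by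
    intro x
    refine Finset.disjoint_left.2 (fun a h1 h2 => ?_)
    have := (hM x).2 h1
    rw [hU, Finset.mem_sdiff] at this
    exact this.2 h2
  have hPMu : ∀ x, IsPM q (ρ ∪ M x) := fun x => hρ.union (hM x).1 (hdisj x).symm
  -- decision tree functions
  have htree : ∀ A ∈ GamL m π G, ∃ b st : X → Bool, ind K b ∈ 𝔉.LD (5 * (s + 1)) ∧
      ind K st ∈ 𝔉.LD (5 * (s + 1)) ∧ Der 𝔉 Ax w (ind K st) ∧
      ∀ x, (st x = false → ∃ t, t ⊆ M x ∧ t.card ≤ s ∧ FoM p q s blk A (b x) (ρ ∪ t)) ∧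
        (b x = true → ∃ t, t ⊆ M x ∧ t.card ≤ s ∧ FoM p q s blk A true (ρ ∪ t)) := by
    intro A hA
    refine tree_fn (Q := fun b M => FoM p q s blk A b M) hq hρ (fun x => (hM x).1) hdisj hMB
      hw5 ?_ (hdec A hA (ordep_GamL hd hA))
    intro a ha
    exact ⟨a, by rw [hU, Finset.mem_sdiff]; exact ⟨Finset.mem_univ _, ha⟩, rfl⟩
  choose! b st hb hst hder hsem using htree
  have hroom' : ∀ (x : X) (t t' : Finset (Finset V)), t.card ≤ s → t'.card ≤ s →
      q * (ρ ∪ (t ∪ t')).card ≤ q * (k (d + 1) + 2 * s) := by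
    intro x t t' h1 h2
    refine Nat.mul_le_mul_left _ ((Finset.card_union_le _ _).trans ?_)
    have := Finset.card_union_le t t'
    omega
  have e1 : q * (k (d + 1) + 2 * s + 1) = q * (k (d + 1) + 2 * s) + q := by ring
  have hcons : ∀ A ∈ GamL m π G, ∀ x, TM p q s blk ρ M true A x →
      TM p q s blk ρ M false A x → False := by
    rintro A hA' x ⟨t, ht1, ht2, ht3⟩ ⟨t', ht1', ht2', ht3'⟩
    have h5 : ρ ∪ (t ∪ t') ⊆ ρ ∪ M x :=
      Finset.union_subset_union_right (Finset.union_subset ht1 ht1')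
    refine FoM_cons A ((hPMu x).mono h5) ?_
      (FoM_mono A _ (Finset.union_subset_union_right Finset.subset_union_left) ht3)
      (FoM_mono A _ (Finset.union_subset_union_right Finset.subset_union_right) ht3')
    have h6 := hroom' x t t' ht2 ht2'
    have h7 := ordep_GamL hd hA'
    have h8 : q * s * ordep A ≤ q * s * (d + 2) := Nat.mul_le_mul_left _ (by omega)
    rw [hcard]
    omega
  set b' : Fm → X → Bool := fun A x =>
    if A.IsLit then decide (TM p q s blk ρ M true A x) else b A x with hb'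
  have hb'lit : ∀ A, A.IsLit → b' A = fun x => decide (TM p q s blk ρ M true A x) := by
    intro A hA; funext x; simp only [hb', if_pos hA]
  have hb'not : ∀ A, ¬ A.IsLit → b' A = b A := by
    intro A hA; funext x; simp only [hb', if_neg hA]
  have hmodF : ∀ (c : Bool) (k : ℕ) (f : Fin k → Fm) (x : X),
      TM p q s blk ρ M c (.mod k f) x → ∃ U : Finset (Fin k),
        (∀ i ∈ U, TM p q s blk ρ M true (f i) x) ∧
        (∀ i, i ∉ U → TM p q s blk ρ M false (f i) x) ∧ c = decide (p ∣ U.card) := by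
    rintro c k f x ⟨t, ht1, ht2, U, h1, h2, h3⟩
    exact ⟨U, fun i hi => ⟨t, ht1, ht2, h1 i hi⟩, fun i hi => ⟨t, ht1, ht2, h2 i hi⟩, h3⟩
  have H : LocHyp 𝔉 Ax m p w (5 * (s + 1)) t g0 G (subs π) (GamL m π G : Set Fm) b' st
      (TM p q s blk ρ M true) (TM p q s blk ρ M false) := by
    refine ⟨?_, hgs, hgv, hgl, hg0', ?_, ?_, ?_, hfew, ?_, ?_, ?_, ?_, ?_, ?_, ?_, ?_, ?_, ?_,
      ?_, ?_, ?_⟩
    · intro A hA B hB; exact subs_trans hA hB
    · intro A hA hO H' hH'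
      exact sbL_mem_GamL hA hO H'
    · intro L hL H' hH'
      exact ovPartL_mem_GamL hL H'
    · exact mem_GamL.2 (Or.inl rfl)
    · intro A hA
      by_cases hl : A.IsLit
      · rw [hb'lit A hl]
        exact lit_deg (p := p) (q := q) (s := s) (blk := blk) (ρ := ρ) (M := M) hs hqs hblk
          (fun x => (hM x).1) hMB hl (fun x => Iff.rfl)
      · rw [hb'not A hl]; exact hb A hA
    · intro A hA; exact hst A hA
    · intro A hA; exact hder A hA
    · intro A hA x hx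
      by_cases hl : A.IsLit
      · rw [hb'lit A hl] at hx
        simpa using hx
      · rw [hb'not A hl] at hx
        exact (hsem A hA x).2 hx
    · intro A hA x h1 h2
      obtain ⟨t, ht1, ht2, ht3⟩ := (hsem A hA x).1 h1
      by_cases hl : A.IsLit
      · rw [hb'lit A hl] at h2
        have h3 : ¬ TM p q s blk ρ M true A x := by simpa using h2
        rcases hbx : b A x with _ | _
        · rw [hbx] at ht3; exact ⟨t, ht1, ht2, ht3⟩
        · rw [hbx] at ht3; exact absurd ⟨t, ht1, ht2, ht3⟩ h3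
      · rw [hb'not A hl] at h2
        rw [h2] at ht3
        exact ⟨t, ht1, ht2, ht3⟩
    · intro A hA x h1 h2; exact hcons A hA x h1 h2
    · intro A x; exact Iff.rfl
    · intro A x; exact Iff.rfl
    · intro L x
      constructor
      · rintro ⟨t, ht1, ht2, ht3⟩
        rw [foM_orL_true] at ht3
        obtain ⟨z, hz, hz2⟩ := ht3
        exact ⟨z, hz, t, ht1, ht2, hz2⟩
      · rintro ⟨z, hz, t, ht1, ht2, hz2⟩
        exact ⟨t, ht1, ht2, foM_orL_true.2 ⟨z, hz, hz2⟩⟩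
    · intro x
      refine ⟨∅, by simp, by simp, ?_⟩
      intro M' _ _ _ i
      exact i.elim0
    · intro A hA hl x hx
      rw [hb'lit A hl]
      simpa using hx
    · intro k f x hx
      obtain ⟨U, h1, h2, h3⟩ := hmodF true k f x hx
      exact ⟨U, h1, h2, of_decide_eq_true h3.symm⟩
    · intro k f x hx
      obtain ⟨U, h1, h2, h3⟩ := hmodF false k f x hx
      exact ⟨U, h1, h2, of_decide_eq_false h3.symm⟩
  refine H.no_refutation hκp hκt (fun A hA => depth_subs hd hA) hDm hR (Fs := Fs) ?_ hw hw2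
    hπ (fun A hA => ⟨A, hA, Fm.IsSub.refl⟩)
  rintro C hC H' _ x ⟨t, ht1, ht2, ht3⟩
  rw [ovPartL_clause hgl] at ht3
  refine hFs C hC _ ((hPMu x).mono (Finset.union_subset_union_right ht1)) ?_ ht3
  have h6 := hroom' x t ∅ ht2 (by simp)
  rw [Finset.union_empty] at h6
  have h8 : q * s * 1 ≤ q * s * (d + 2) := Nat.mul_le_mul_left _ (by omega)
  have e2 : q * ((ρ ∪ t).card + 1) = q * (ρ ∪ t).card + q := by ring
  omega

end Pool.Agent.Helper21.Loc
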