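import Pool.Agent.Helper21.Loc.Force

/-!
The first restriction: all formulas `MOD_p` of few literals get shallow decision trees.
-/

namespace Pool.Agent.Helper21.Loc

open scoped BigOperators Classical
open Pool.Agent.Helper21.AC0p Pool.Agent.Helper21.Mix

set_option linter.unusedSectionVars false

variable {V : Type} [Fintype V]

theorem choose_step (N M q : ℕ) (hM : M + 1 ≤ N) :
    M.choose q * N ≤ (M + 1).choose q * (N - q) := by
  by_cases hq : q ≤ M + 1
  · have h1 := Nat.choose_mul_succ_eq M q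
    have h2 : M.choose q * N * (M + 1) ≤ (M + 1).choose q * (N - q) * (M + 1) := by
      calc M.choose q * N * (M + 1) = (M.choose q * (M + 1)) * N := by ring
        _ = (M + 1).choose q * ((M + 1 - q) * N) := by rw [h1]; ring
        _ ≤ (M + 1).choose q * ((N - q) * (M + 1)) := by
            refine Nat.mul_le_mul_left _ ?_
            obtain ⟨a, rfl⟩ := Nat.exists_eq_add_of_le hM
            obtain ⟨b, hb⟩ := Nat.exists_eq_add_of_le hq
            have e1 : M + 1 - q = b := by omega
            have e2 : M + 1 + a - q = b + a := by omega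
            rw [e1, e2, hb]
            nlinarith [Nat.zero_le (q * a)]
        _ = _ := by ring
    exact Nat.le_of_mul_le_mul_right h2 (Nat.succ_pos M)
  · rw [Nat.choose_eq_zero_of_lt (by omega)]
    simp

theorem choose_shrink (N q : ℕ) (w : ℕ) (hw : w ≤ N) :
    (N - w).choose q * N ^ w ≤ N.choose q * (N - q) ^ w := by
  induction w with
  | zero => simp
  | succ w ih =>
    have h1 := ih (by omega)
    have h2 := choose_step N (N - (w + 1)) q (by omega)
    have e : N - (w + 1) + 1 = N - w := by omega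
    rw [e] at h2
    calc (N - (w + 1)).choose q * N ^ (w + 1) = ((N - (w + 1)).choose q * N) * N ^ w := by
          rw [pow_succ]; ring
      _ ≤ ((N - w).choose q * (N - q)) * N ^ w := Nat.mul_le_mul_right _ h2
      _ = ((N - w).choose q * N ^ w) * (N - q) := by ring
      _ ≤ (N.choose q * (N - q) ^ w) * (N - q) := Nat.mul_le_mul_right _ h1
      _ = N.choose q * (N - q) ^ (w + 1) := by rw [pow_succ]; ring

/-- One block. -/
theorem exists_block_good {ι : Type} (𝓙 : Finset ι) (W : ι → Finset V) {w q : ℕ} (U : Finset V)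
    (hW : ∀ i ∈ 𝓙, (W i).card = w ∧ W i ⊆ U) (hqU : q ≤ U.card) :
    ∃ B : Finset V, B.card = q ∧ B ⊆ U ∧
      (𝓙.filter (fun i => Disjoint (W i) B)).card * U.card ^ w ≤ 𝓙.card * (U.card - q) ^ w := by
  by_contra hcon
  push Not at hcon
  rcases 𝓙.eq_empty_or_nonempty with h0 | ⟨i0, hi0⟩
  · obtain ⟨B, hB1, hB2⟩ := Finset.exists_subset_card_eq hqU
    have := hcon B hB2 hB1
    subst h0
    simp at this
  have hwU : w ≤ U.card := by
    have h1 := hW i0 hi0
    rw [← h1.1]
    exact Finset.card_le_card h1.2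
  have h1 : ∑ B ∈ U.powersetCard q, (𝓙.filter (fun i => Disjoint (W i) B)).card =
      𝓙.card * (U.card - w).choose q := by
    have e1 : ∀ B ∈ U.powersetCard q, (𝓙.filter (fun i => Disjoint (W i) B)).card =
        ∑ i ∈ 𝓙, if Disjoint (W i) B then 1 else 0 := by
      intro B _
      rw [Finset.card_filter]
    rw [Finset.sum_congr rfl e1, Finset.sum_comm]
    have e2 : ∀ i ∈ 𝓙, (∑ B ∈ U.powersetCard q, if Disjoint (W i) B then 1 else 0) =
        (U.card - w).choose q := by
      intro i hi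
      rw [← Finset.card_filter]
      have e3 : (U.powersetCard q).filter (fun B => Disjoint (W i) B) =
          (U \ W i).powersetCard q := by
        ext B
        simp only [Finset.mem_filter, Finset.mem_powersetCard]
        constructor
        · rintro ⟨⟨h1, h2⟩, h3⟩
          exact ⟨Finset.subset_sdiff.2 ⟨h1, h3.symm⟩, h2⟩
        · rintro ⟨h1, h2⟩
          rw [Finset.subset_sdiff] at h1
          exact ⟨⟨h1.1, h2⟩, h1.2.symm⟩
      rw [e3, Finset.card_powersetCard, Finset.card_sdiff_of_subset (hW i hi).2, (hW i hi).1]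
    rw [Finset.sum_congr rfl e2, Finset.sum_const, smul_eq_mul]
  have h2 : ∑ B ∈ U.powersetCard q, 𝓙.card * (U.card - q) ^ w <
      ∑ B ∈ U.powersetCard q, (𝓙.filter (fun i => Disjoint (W i) B)).card * U.card ^ w := by
    apply Finset.sum_lt_sum_of_nonempty
    · rw [Finset.powersetCard_nonempty]; exact hqU
    · intro B hB
      rw [Finset.mem_powersetCard] at hB
      exact hcon B hB.2 hB.1
  rw [Finset.sum_const, Finset.card_powersetCard, smul_eq_mul, ← Finset.sum_mul, h1] at h2
  have h3 := choose_shrink U.card q w hwU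
  have h4 : 𝓙.card * (U.card - w).choose q * U.card ^ w ≤
      U.card.choose q * (𝓙.card * (U.card - q) ^ w) := by
    calc 𝓙.card * (U.card - w).choose q * U.card ^ w =
          𝓙.card * ((U.card - w).choose q * U.card ^ w) := by ring
      _ ≤ 𝓙.card * (U.card.choose q * (U.card - q) ^ w) := Nat.mul_le_mul_left _ h3
      _ = _ := by ring
  omega

/-- Few sets survive. -/
theorem exists_shrink {ι : Type} (𝓘 : Finset ι) (W : ι → Finset V) {w q : ℕ} (hq : 1 ≤ q)
    (hW : ∀ i ∈ 𝓘, (W i).card = w) (k : ℕ) (hk : q * k ≤ Fintype.card V) :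
    ∃ ρ : Finset (Finset V), IsPM q ρ ∧ ρ.card = k ∧
      (𝓘.filter (fun i => Disjoint (W i) (supp ρ))).card * Fintype.card V ^ w ≤
        𝓘.card * (Fintype.card V - q * k) ^ w := by
  induction k with
  | zero =>
    refine ⟨∅, IsPM.empty, by simp, ?_⟩
    simp only [mul_zero, Nat.sub_zero]
    exact Nat.mul_le_mul_right _ (Finset.card_filter_le _ _)
  | succ k ih =>
    have e : q * (k + 1) = q * k + q := by ring
    obtain ⟨ρ, hρ, hρk, hρc⟩ := ih (by omega)
    set N := Fintype.card V with hN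
    set U : Finset V := Finset.univ \ supp ρ with hU
    have hUc : U.card = N - q * k := by
      rw [hU, Finset.card_sdiff_of_subset (Finset.subset_univ _), Finset.card_univ,
        hρ.card_supp, hρk]
    set 𝓙 := 𝓘.filter (fun i => Disjoint (W i) (supp ρ)) with h𝓙
    obtain ⟨B, hB1, hB2, hB3⟩ := exists_block_good 𝓙 W (w := w) (q := q) U (by
      intro i hi
      rw [h𝓙, Finset.mem_filter] at hi
      refine ⟨hW i hi.1, ?_⟩
      rw [hU, Finset.subset_sdiff]
      exact ⟨Finset.subset_univ _, hi.2⟩) (by rw [hUc]; omega)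
    have hBd : Disjoint B (supp ρ) := by
      rw [hU, Finset.subset_sdiff] at hB2
      exact hB2.2
    refine ⟨insert B ρ, hρ.insert hB1 hBd, ?_, ?_⟩
    · rw [Finset.card_insert_of_notMem (IsPM.not_mem_of_disjoint hq hB1 hBd), hρk]
    · have h1 : 𝓘.filter (fun i => Disjoint (W i) (supp (insert B ρ))) =
          𝓙.filter (fun i => Disjoint (W i) B) := by
        ext i
        rw [h𝓙, Finset.mem_filter, Finset.mem_filter, Finset.mem_filter, supp_insert,
          Finset.disjoint_union_right]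
        tauto
      rw [h1]
      rw [hUc] at hB3
      have e2 : N - q * (k + 1) = N - q * k - q := by omega
      rw [e2]
      set a := (𝓙.filter (fun i => Disjoint (W i) B)).card
      set n' := N - q * k with hn'
      have hpos : 0 < n' := by omega
      have h5 : a * N ^ w * n' ^ w ≤ 𝓘.card * (n' - q) ^ w * n' ^ w := by
        calc a * N ^ w * n' ^ w = (a * n' ^ w) * N ^ w := by ring
          _ ≤ (𝓙.card * (n' - q) ^ w) * N ^ w := Nat.mul_le_mul_right _ hB3
          _ = (𝓙.card * N ^ w) * (n' - q) ^ w := by ring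
          _ ≤ (𝓘.card * n' ^ w) * (n' - q) ^ w := Nat.mul_le_mul_right _ hρc
          _ = _ := by ring
      exact Nat.le_of_mul_le_mul_right h5 (Nat.pow_pos hpos)

/-- The blocks of the arguments. -/
noncomputable def blocksOf (blk : ℕ → Option (Finset V)) : Fm → Finset (Finset V)
  | .mod _ f => Finset.univ.biUnion (fun i => (blk (litIdx (f i))).toFinset)
  | _ => ∅

theorem card_blocksOf {blk : ℕ → Option (Finset V)} {k : ℕ} (f : Fin k → Fm) :
    (blocksOf blk (.mod k f)).card ≤ k := by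
  unfold blocksOf
  refine (Finset.card_biUnion_le).trans ?_
  refine (Finset.sum_le_card_nsmul _ _ 1 (fun i _ => ?_)).trans ?_
  · rcases blk (litIdx (f i)) with _ | B <;> simp
  · simp

theorem mem_blocksOf {blk : ℕ → Option (Finset V)} {k : ℕ} {f : Fin k → Fm} {B : Finset V} :
    B ∈ blocksOf blk (.mod k f) ↔ ∃ i, blk (litIdx (f i)) = some B := by
  unfold blocksOf
  simp

theorem exists_first {p q s : ℕ} {blk : ℕ → Option (Finset V)} (hq : 1 ≤ q)
    (hblk : ∀ i B, blk i = some B → B.card = q) (𝒢 : Finset Fm) {m j k : ℕ}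
    (h𝒢 : ∀ A ∈ 𝒢, A.LitMod m) (hj : 1 ≤ j) (hjs : q * j ≤ s)
    (hk : q * k ≤ Fintype.card V)
    (hcount : 𝒢.card * m ^ j * (Fintype.card V - q * k) ^ (q * j) <
      Fintype.card V ^ (q * j)) :
    ∃ ρ : Finset (Finset V), IsPM q ρ ∧ ρ.card = k ∧
      ∀ A ∈ 𝒢, Dec q (DcM p q s blk A) s ρ := by
  set 𝓘 : Finset (Fm × Finset (Finset V)) :=
    (𝒢 ×ˢ (Finset.univ : Finset (Finset (Finset V)))).filter
      (fun x => x.2 ⊆ blocksOf blk x.1 ∧ x.2.card = j ∧ IsPM q x.2) with h𝓘
  have hmem : ∀ x, x ∈ 𝓘 ↔ x.1 ∈ 𝒢 ∧ x.2 ⊆ blocksOf blk x.1 ∧ x.2.card = j ∧ IsPM q x.2 := by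
    intro x; simp [h𝓘]
  have hcard𝓘 : 𝓘.card ≤ 𝒢.card * m ^ j := by
    have h1 : 𝓘 ⊆ 𝒢.biUnion (fun A => ((blocksOf blk A).powersetCard j).image
        (fun T => (A, T))) := by
      intro x hx
      rw [hmem] at hx
      rw [Finset.mem_biUnion]
      refine ⟨x.1, hx.1, ?_⟩
      rw [Finset.mem_image]
      exact ⟨x.2, Finset.mem_powersetCard.2 ⟨hx.2.1, hx.2.2.1⟩, rfl⟩
    refine (Finset.card_le_card h1).trans (Finset.card_biUnion_le.trans ?_)
    refine (Finset.sum_le_card_nsmul _ _ (m ^ j) (fun A hA => ?_)).trans (le_of_eq ?_)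
    · refine Finset.card_image_le.trans ?_
      rw [Finset.card_powersetCard]
      obtain ⟨k', f, rfl, hk', _⟩ := h𝒢 A hA
      exact (Nat.choose_le_pow _ _).trans (Nat.pow_le_pow_left ((card_blocksOf f).trans hk') _)
    · rw [smul_eq_mul]
  obtain ⟨ρ, hρ, hρk, hρc⟩ := exists_shrink 𝓘 (fun x => supp x.2) (w := q * j) hq (by
    intro x hx
    rw [hmem] at hx
    rw [hx.2.2.2.card_supp, hx.2.2.1]) k hk
  have hzero : (𝓘.filter (fun x => Disjoint (supp x.2) (supp ρ))).card = 0 := by
    by_contra hne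
    have h1 : 1 ≤ (𝓘.filter (fun x => Disjoint (supp x.2) (supp ρ))).card := by omega
    have h2 : Fintype.card V ^ (q * j) ≤
        (𝓘.filter (fun x => Disjoint (supp x.2) (supp ρ))).card * Fintype.card V ^ (q * j) :=
      Nat.le_mul_of_pos_left _ h1
    have h3 : 𝓘.card * (Fintype.card V - q * k) ^ (q * j) ≤
        𝒢.card * m ^ j * (Fintype.card V - q * k) ^ (q * j) := Nat.mul_le_mul_right _ hcard𝓘
    omega
  rw [Finset.card_eq_zero] at hzero
  refine ⟨ρ, hρ, hρk, ?_⟩
  intro A hA
  obtain ⟨k', f, rfl, _, hf⟩ := h𝒢 A hA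
  -- a maximal family of disjoint live blocks
  set 𝒯 : Finset (Finset (Finset V)) := (blocksOf blk (.mod k' f)).powerset.filter
    (fun T => IsPM q T ∧ Disjoint (supp T) (supp ρ)) with h𝒯
  have h𝒯mem : ∀ T, T ∈ 𝒯 ↔ T ⊆ blocksOf blk (.mod k' f) ∧ IsPM q T ∧
      Disjoint (supp T) (supp ρ) := by
    intro T; simp [h𝒯]
  have hne : 𝒯.Nonempty := ⟨∅, (h𝒯mem ∅).2 ⟨Finset.empty_subset _, IsPM.empty, by
    rw [supp_empty]; exact Finset.disjoint_empty_left _⟩⟩
  obtain ⟨T, hT, hTmax⟩ := Finset.exists_max_image 𝒯 Finset.card hne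
  rw [h𝒯mem] at hT
  have hTj : T.card < j := by
    by_contra hcon
    obtain ⟨T', hT', hT'c⟩ := Finset.exists_subset_card_eq (show j ≤ T.card by omega)
    have : ((Fm.mod k' f, T') : Fm × Finset (Finset V)) ∈
        𝓘.filter (fun x => Disjoint (supp x.2) (supp ρ)) := by
      rw [Finset.mem_filter, hmem]
      exact ⟨⟨hA, hT'.trans hT.1, hT'c, hT.2.1.mono hT'⟩,
        hT.2.2.mono_left (supp_mono hT')⟩
    rw [hzero] at this
    simp at this
  refine decM_mod hq hf hρ (supp T) ?_ ?_
  · rw [hT.2.1.card_supp]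
    exact (Nat.mul_le_mul_left _ hTj.le).trans hjs
  · intro i B hB hBρ hdis
    have hBq := hblk _ B hB
    have hBT : Disjoint B (supp T) := hdis.symm
    have hnot := IsPM.not_mem_of_disjoint hq hBq hBT
    have h1 : insert B T ∈ 𝒯 := by
      rw [h𝒯mem]
      refine ⟨Finset.insert_subset (mem_blocksOf.2 ⟨i, hB⟩) hT.1, hT.2.1.insert hBq hBT, ?_⟩
      rw [supp_insert, Finset.disjoint_union_left]
      exact ⟨hBρ.symm, hT.2.2⟩
    have h2 := hTmax _ h1
    rw [Finset.card_insert_of_notMem hnot] at h2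
    omega

end Pool.Agent.Helper21.Loc
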